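import Mathlib

/-!
# The function `conj (F (conj s))`
-/

set_option autoImplicit false

open Complex Filter Topology
open scoped ComplexConjugate

namespace Pool.Agent.E8helper33.AH

/-- `s ↦ conj (F (conj s))` -/
noncomputable def cc (F : ℂ → ℂ) : ℂ → ℂ := fun z => conj (F (conj z))

lemma tendsto_conj (x : ℂ) : Tendsto (fun z : ℂ => conj z) (𝓝 (conj x)) (𝓝 x) := by
  have h := (Complex.continuous_conj.continuousAt (x := conj x)).tendsto
  rwa [Complex.conj_conj] at h

lemma tendsto_conj' (x : ℂ) : Tendsto (fun z : ℂ => conj z) (𝓝[≠] (conj x)) (𝓝[≠] x) := by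
  refine tendsto_nhdsWithin_of_tendsto_nhds_of_eventually_within _
    ((tendsto_conj x).mono_left nhdsWithin_le_nhds) ?_
  filter_upwards [self_mem_nhdsWithin] with z hz
  intro h
  apply hz
  have := congrArg conj (h : conj z = x)
  rwa [Complex.conj_conj] at this

lemma analyticAt_cc {g : ℂ → ℂ} {x : ℂ} (h : AnalyticAt ℂ g x) : AnalyticAt ℂ (cc g) (conj x) := by
  rw [Complex.analyticAt_iff_eventually_differentiableAt] at h ⊢
  filter_upwards [(tendsto_conj x).eventually h] with z hz
  have h1 := hz.conj_conj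
  rw [Complex.conj_conj] at h1
  exact h1

lemma meromorphicAt_cc {F : ℂ → ℂ} {x : ℂ} (h : MeromorphicAt F x) : MeromorphicAt (cc F) (conj x) := by
  obtain ⟨n, hn⟩ := h
  refine ⟨n, ?_⟩
  refine (analyticAt_cc hn).congr (Eventually.of_forall fun z => ?_)
  simp [cc]

lemma order_cc {F : ℂ → ℂ} {x : ℂ} (h : MeromorphicAt F x) {n : ℤ}
    (hn : meromorphicOrderAt F x = n) : meromorphicOrderAt (cc F) (conj x) = n := by
  rw [meromorphicOrderAt_eq_int_iff h] at hn
  rw [meromorphicOrderAt_eq_int_iff (meromorphicAt_cc h)]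
  obtain ⟨g, hg, hg0, he⟩ := hn
  refine ⟨cc g, analyticAt_cc hg, ?_, ?_⟩
  · simpa [cc] using hg0
  · filter_upwards [(tendsto_conj' x).eventually he] with z hz
    simp only [cc]
    rw [hz]
    simp

end Pool.Agent.E8helper33.AH
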