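import Pool.Agent.E8helper33.AH.Global

/-!
# The comparison of two Euler products with a gap
-/

set_option autoImplicit false

open Complex Filter Topology Set
open scoped ComplexOrder Nat

namespace Pool.Agent.E8helper33.AH

variable {P : Type*} {q : P → ℕ}

/-- **Comparison.** Two families of power sums `χ` and `α` such that `|χ| ≤ |α|`; the quotient of the
Euler products of `|α|²` and `|χ|²` has a real pole `β` (or `β = 0`) which bounds from the right the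
poles of all Euler products `L` of `x` for which there is an Euler product `Lp` of `y` without poles
with `|x - y| ≤ C (|α|² - |χ|²)`. -/
theorem core (hq : ∀ v, 2 ≤ q v)
    (hs : ∀ σ : ℝ, 1 < σ → Summable fun v => (q v : ℝ) ^ (-σ)) {χ α : P → ℕ → ℂ} {B : ℝ}
    (hχ : ∀ v k, ‖χ v (k + 1)‖ ≤ B) (hα : ∀ v k, ‖α v (k + 1)‖ ≤ B)
    (gap1 : ∀ v k, ‖χ v (k + 1)‖ ^ 2 ≤ ‖α v (k + 1)‖ ^ 2)
    {R D : ℂ → ℂ}
    (hR : MeromorphicOn R {s | 0 < s.re})
    (hRe : ∀ s : ℂ, 1 < s.re → R s = eul q (fun v k => ((‖α v k‖ ^ 2 : ℝ) : ℂ)) s)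
    (hD : MeromorphicOn D {s | 0 < s.re})
    (hDe : ∀ s : ℂ, 1 < s.re → D s = eul q (fun v k => ((‖χ v k‖ ^ 2 : ℝ) : ℂ)) s) :
    ∃ β : ℝ, 0 ≤ β ∧ β ≤ 1 ∧
      (0 < β → meromorphicOrderAt (R * D⁻¹) (β : ℂ) < 0) ∧
      ∀ (x y : P → ℕ → ℂ) (A C : ℝ), (∀ v k, ‖x v (k + 1)‖ ≤ A) → (∀ v k, ‖y v (k + 1)‖ ≤ A) →
        (∀ v k, ‖x v (k + 1) - y v (k + 1)‖ ≤ C * (‖α v (k + 1)‖ ^ 2 - ‖χ v (k + 1)‖ ^ 2)) →
        ∀ L Lp : ℂ → ℂ, MeromorphicOn L {s | 0 < s.re} → (∀ s : ℂ, 1 < s.re → L s = eul q x s) →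
          DifferentiableOn ℂ Lp {s | 0 < s.re} → (∀ s : ℂ, 1 < s.re → Lp s = eul q y s) →
          ∀ s : ℂ, β < s.re → 0 ≤ meromorphicOrderAt L s := by
  classical
  rcases isEmpty_or_nonempty P with hP | ⟨⟨v0⟩⟩
  · -- no primes
    refine ⟨0, le_rfl, zero_le_one, fun h => absurd h (lt_irrefl _), ?_⟩
    intro x y A C _ _ _ L Lp hL hLe _ _ s hs0
    have h1 : MeromorphicOn (fun _ : ℂ => (1 : ℂ)) {s : ℂ | 0 < s.re} := fun z _ => MeromorphicAt.const 1 z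
    have h2 := half_id hL h1 (fun s _ hs1 => by rw [hLe s hs1]; unfold eul; simp) hs0
    rw [meromorphicOrderAt_congr h2]
    exact analyticAt_const.meromorphicOrderAt_nonneg
  have hB0 : 0 ≤ B := (norm_nonneg _).trans (hχ v0 0)
  set a : P × ℕ → ℝ := fun x => (‖α x.1 (x.2 + 1)‖ ^ 2 - ‖χ x.1 (x.2 + 1)‖ ^ 2) / ((x.2 + 1 : ℕ) : ℝ) with ha
  have ha0 : ∀ x, 0 ≤ a x := fun x => div_nonneg (sub_nonneg.2 (gap1 _ _)) (Nat.cast_nonneg _)
  have hl0 : ∀ x, 0 ≤ lam q x := lam_nonneg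
  have hα2 : ∀ v k, ‖((‖α v (k + 1)‖ ^ 2 : ℝ) : ℂ)‖ ≤ B ^ 2 := by
    intro v k
    rw [Complex.norm_real, Real.norm_of_nonneg (by positivity)]
    exact pow_le_pow_left₀ (norm_nonneg _) (hα v k) 2
  have hχ2 : ∀ v k, ‖((‖χ v (k + 1)‖ ^ 2 : ℝ) : ℂ)‖ ≤ B ^ 2 := by
    intro v k
    rw [Complex.norm_real, Real.norm_of_nonneg (by positivity)]
    exact pow_le_pow_left₀ (norm_nonneg _) (hχ v k) 2
  have hdiff : ∀ v k, ‖(fun v k => ((‖α v k‖ ^ 2 - ‖χ v k‖ ^ 2 : ℝ) : ℂ)) v (k + 1)‖ ≤ B ^ 2 := by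
    intro v k
    simp only
    rw [Complex.norm_real, Real.norm_of_nonneg (sub_nonneg.2 (gap1 v k))]
    have := pow_le_pow_left₀ (norm_nonneg _) (hα v k) 2
    have := sq_nonneg ‖χ v (k + 1)‖
    linarith
  have hcofa : (fun x => (a x : ℂ)) = cof (fun v k => ((‖α v k‖ ^ 2 - ‖χ v k‖ ^ 2 : ℝ) : ℂ)) := by
    funext x
    simp only [ha, cof]
    push_cast
    ring
  have hconv1 : Conv (fun x => (a x : ℂ)) (lam q) 1 := by
    rw [hcofa]
    exact conv_cof hq hs hdiff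
  have hFm : MeromorphicOn (R * D⁻¹) {s | 0 < s.re} := hR.mul hD.inv
  have hFe : ∀ s : ℂ, 1 < s.re → (R * D⁻¹) s = cexp (gds (fun x => (a x : ℂ)) (lam q) s) := by
    intro s h
    have h1 := eul_mul hq hs (a := fun v k => ((‖α v k‖ ^ 2 - ‖χ v k‖ ^ 2 : ℝ) : ℂ))
      (b := fun v k => ((‖χ v k‖ ^ 2 : ℝ) : ℂ)) hdiff hχ2 h
    have h2 : (fun v k => ((‖α v k‖ ^ 2 - ‖χ v k‖ ^ 2 : ℝ) : ℂ) + ((‖χ v k‖ ^ 2 : ℝ) : ℂ))
        = fun v k => ((‖α v k‖ ^ 2 : ℝ) : ℂ) := by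
      funext v k
      push_cast
      ring
    rw [h2] at h1
    rw [Pi.mul_apply, Pi.inv_apply, hRe s h, hDe s h, h1, hcofa, ← eul_eq hq]
    have h3 : eul q (fun v k => ((‖χ v k‖ ^ 2 : ℝ) : ℂ)) s ≠ 0 := Complex.exp_ne_zero _
    field_simp
  obtain ⟨β, hβ0, hβ1, hβc, hβp⟩ := landau_global ha0 hl0 hconv1 hFm hFe
  refine ⟨β, hβ0, hβ1, hβp, ?_⟩
  intro x y A C hx hy gap2 L Lp hL hLe hLp hLpe s hsβ
  -- the difference series
  have hC : ∀ u : P × ℕ, ‖cof (fun v k => x v k - y v k) u‖ ≤ |C| * a u := by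
    intro u
    unfold cof
    rw [norm_div, Complex.norm_natCast, ha]
    simp only
    rw [← mul_div_assoc]
    refine div_le_div_of_nonneg_right ?_ (Nat.cast_nonneg _)
    refine (gap2 _ _).trans ?_
    exact mul_le_mul_of_nonneg_right (le_abs_self C) (sub_nonneg.2 (gap1 _ _))
  have hcd : Conv (cof (fun v k => x v k - y v k)) (lam q) β := by
    intro τ hτ
    refine Summable.of_nonneg_of_le (fun x => by positivity) (fun x => ?_) ((hβc τ hτ).mul_left |C|)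
    rw [Complex.norm_real, Real.norm_of_nonneg (ha0 x), ← mul_assoc]
    exact mul_le_mul_of_nonneg_right (hC x) (Real.exp_pos _).le
  have hgd : DifferentiableOn ℂ (fun z => cexp (gds (cof (fun v k => x v k - y v k)) (lam q) z))
      {s | β < s.re} := (hcd.differentiableOn hl0).cexp
  have hsub : {s : ℂ | β < s.re} ⊆ {s : ℂ | 0 < s.re} := fun z (hz : β < z.re) =>
    lt_of_le_of_lt hβ0 hz
  have hprod : DifferentiableOn ℂ (fun z => Lp z * cexp (gds (cof (fun v k => x v k - y v k)) (lam q) z))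
      {s | β < s.re} := (hLp.mono hsub).mul hgd
  have hsd : ∀ v k, ‖(fun v k => x v k - y v k) v (k + 1)‖ ≤ A + A := fun v k =>
    (norm_sub_le _ _).trans (add_le_add (hx v k) (hy v k))
  have hid := half_id (hL.mono_set hsub)
    (fun z hz => (hprod.analyticAt ((isOpen_half β).mem_nhds hz)).meromorphicAt)
    (fun z _ hz => by
      have h1 := eul_mul hq hs (a := fun v k => x v k - y v k) (b := y) hsd hy hz
      have h2 : (fun v k => x v k - y v k + y v k) = x := by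
        funext v k
        ring
      rw [h2] at h1
      rw [hLe z hz, hLpe z hz, h1, ← eul_eq hq, mul_comm]) hsβ
  rw [meromorphicOrderAt_congr hid]
  exact (hprod.analyticAt ((isOpen_half β).mem_nhds hsβ)).meromorphicOrderAt_nonneg

end Pool.Agent.E8helper33.AH
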