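import Pool.Agent.E8helper33.AH.Core

/-!
# The comparison of two Euler products with a gap, with the convergence to the right of the pole
-/

set_option autoImplicit false

open Complex Filter Topology Set
open scoped ComplexOrder Nat

namespace Pool.Agent.E8helper33.AH

variable {P : Type*} {q : P → ℕ}

/-- the coefficients of the comparison -/
noncomputable def gapc (χ α : P → ℕ → ℂ) (x : P × ℕ) : ℝ :=
  (‖α x.1 (x.2 + 1)‖ ^ 2 - ‖χ x.1 (x.2 + 1)‖ ^ 2) / ((x.2 + 1 : ℕ) : ℝ)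

/-- **Comparison.** As `core`, and moreover the series of the logarithm of the quotient converges
for `Re s > β`. -/
theorem core2 (hq : ∀ v, 2 ≤ q v)
    (hs : ∀ σ : ℝ, 1 < σ → Summable fun v => (q v : ℝ) ^ (-σ)) {χ α : P → ℕ → ℂ} {B : ℝ}
    (hχ : ∀ v k, ‖χ v (k + 1)‖ ≤ B) (hα : ∀ v k, ‖α v (k + 1)‖ ≤ B)
    (gap1 : ∀ v k, ‖χ v (k + 1)‖ ^ 2 ≤ ‖α v (k + 1)‖ ^ 2)
    {R D : ℂ → ℂ}
    (hR : MeromorphicOn R {s | 0 < s.re})
    (hRe : ∀ s : ℂ, 1 < s.re → R s = eul q (fun v k => ((‖α v k‖ ^ 2 : ℝ) : ℂ)) s)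
    (hD : MeromorphicOn D {s | 0 < s.re})
    (hDe : ∀ s : ℂ, 1 < s.re → D s = eul q (fun v k => ((‖χ v k‖ ^ 2 : ℝ) : ℂ)) s) :
    ∃ β : ℝ, 0 ≤ β ∧ β ≤ 1 ∧
      (0 < β → meromorphicOrderAt (R * D⁻¹) (β : ℂ) < 0) ∧
      Conv (fun x => (gapc χ α x : ℂ)) (lam q) β ∧
      (∀ s : ℂ, β < s.re →
        (R * D⁻¹) =ᶠ[𝓝[≠] s] fun z => cexp (gds (fun x => (gapc χ α x : ℂ)) (lam q) z)) ∧
      ∀ (x y : P → ℕ → ℂ) (A C : ℝ), (∀ v k, ‖x v (k + 1)‖ ≤ A) → (∀ v k, ‖y v (k + 1)‖ ≤ A) →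
        (∀ v k, ‖x v (k + 1) - y v (k + 1)‖ ≤ C * (‖α v (k + 1)‖ ^ 2 - ‖χ v (k + 1)‖ ^ 2)) →
        ∀ L Lp : ℂ → ℂ, MeromorphicOn L {s | 0 < s.re} → (∀ s : ℂ, 1 < s.re → L s = eul q x s) →
          DifferentiableOn ℂ Lp {s | 0 < s.re} → (∀ s : ℂ, 1 < s.re → Lp s = eul q y s) →
          ∀ s : ℂ, β < s.re → 0 ≤ meromorphicOrderAt L s := by
  classical
  have hFm : MeromorphicOn (R * D⁻¹) {s | 0 < s.re} := hR.mul hD.inv
  have ha0 : ∀ x, 0 ≤ gapc χ α x := fun x => div_nonneg (sub_nonneg.2 (gap1 _ _)) (Nat.cast_nonneg _)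
  have hl0 : ∀ x, 0 ≤ lam q x := lam_nonneg
  have hcofa : (fun x => (gapc χ α x : ℂ)) =
      cof (fun v k => ((‖α v k‖ ^ 2 - ‖χ v k‖ ^ 2 : ℝ) : ℂ)) := by
    funext x
    simp only [gapc, cof]
    push_cast
    ring
  -- bounds
  have hb : ∀ {f : P → ℕ → ℂ}, (∀ v k, ‖f v (k + 1)‖ ≤ B) →
      ∀ v k, ‖((‖f v (k + 1)‖ ^ 2 : ℝ) : ℂ)‖ ≤ B ^ 2 := by
    intro f hf v k
    rw [Complex.norm_real, Real.norm_of_nonneg (by positivity)]
    exact pow_le_pow_left₀ (norm_nonneg _) (hf v k) 2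
  have hdiff : ∀ v k, ‖(fun v k => ((‖α v k‖ ^ 2 - ‖χ v k‖ ^ 2 : ℝ) : ℂ)) v (k + 1)‖ ≤ B ^ 2 := by
    intro v k
    simp only
    rw [Complex.norm_real, Real.norm_of_nonneg (sub_nonneg.2 (gap1 v k))]
    have := pow_le_pow_left₀ (norm_nonneg _) (hα v k) 2
    have := sq_nonneg ‖χ v (k + 1)‖
    linarith
  have hconv1 : Conv (fun x => (gapc χ α x : ℂ)) (lam q) 1 := by
    rw [hcofa]
    exact conv_cof hq hs hdiff
  have hFe : ∀ s : ℂ, 1 < s.re → (R * D⁻¹) s = cexp (gds (fun x => (gapc χ α x : ℂ)) (lam q) s) := by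
    intro s h
    have h1 := eul_mul hq hs (a := fun v k => ((‖α v k‖ ^ 2 - ‖χ v k‖ ^ 2 : ℝ) : ℂ))
      (b := fun v k => ((‖χ v k‖ ^ 2 : ℝ) : ℂ)) hdiff (hb hχ) h
    have h2 : (fun v k => ((‖α v k‖ ^ 2 - ‖χ v k‖ ^ 2 : ℝ) : ℂ) + ((‖χ v k‖ ^ 2 : ℝ) : ℂ))
        = fun v k => ((‖α v k‖ ^ 2 : ℝ) : ℂ) := by
      funext v k
      push_cast
      ring
    rw [h2] at h1
    rw [Pi.mul_apply, Pi.inv_apply, hRe s h, hDe s h, h1, hcofa, ← eul_eq hq]
    have h3 : eul q (fun v k => ((‖χ v k‖ ^ 2 : ℝ) : ℂ)) s ≠ 0 := Complex.exp_ne_zero _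
    field_simp
  obtain ⟨β, hβ0, hβ1, hβc, hβp⟩ := landau_global ha0 hl0 hconv1 hFm hFe
  have hsub : {s : ℂ | β < s.re} ⊆ {s : ℂ | 0 < s.re} := fun z (hz : β < z.re) =>
    lt_of_le_of_lt hβ0 hz
  refine ⟨β, hβ0, hβ1, hβp, hβc, ?_, ?_⟩
  · intro s hsβ
    have hexp : DifferentiableOn ℂ (fun z => cexp (gds (fun x => (gapc χ α x : ℂ)) (lam q) z))
        {s | β < s.re} := (hβc.differentiableOn hl0).cexp
    exact half_id (hFm.mono_set hsub)
      (fun z hz => (hexp.analyticAt ((isOpen_half β).mem_nhds hz)).meromorphicAt)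
      (fun z _ hz => hFe z hz) hsβ
  intro x y A C hx hy gap2 L Lp hL hLe hLp hLpe s hsβ
  -- the difference series
  have hC : ∀ u : P × ℕ, ‖cof (fun v k => x v k - y v k) u‖ ≤ |C| * gapc χ α u := by
    intro u
    unfold cof gapc
    rw [norm_div, Complex.norm_natCast]
    rw [← mul_div_assoc]
    refine div_le_div_of_nonneg_right ?_ (Nat.cast_nonneg _)
    refine (gap2 _ _).trans ?_
    exact mul_le_mul_of_nonneg_right (le_abs_self C) (sub_nonneg.2 (gap1 _ _))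
  have hcd : Conv (cof (fun v k => x v k - y v k)) (lam q) β := by
    intro τ hτ
    refine Summable.of_nonneg_of_le (fun x => by positivity) (fun x => ?_) ((hβc τ hτ).mul_left |C|)
    rw [Complex.norm_real, Real.norm_of_nonneg (ha0 x), ← mul_assoc]
    exact mul_le_mul_of_nonneg_right (hC x) (Real.exp_pos _).le
  have hgd : DifferentiableOn ℂ (fun z => cexp (gds (cof (fun v k => x v k - y v k)) (lam q) z))
      {s | β < s.re} := (hcd.differentiableOn hl0).cexp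
  have hprod : DifferentiableOn ℂ (fun z => Lp z * cexp (gds (cof (fun v k => x v k - y v k)) (lam q) z))
      {s | β < s.re} := (hLp.mono hsub).mul hgd
  have hsd : ∀ v k, ‖(fun v k => x v k - y v k) v (k + 1)‖ ≤ A + A := fun v k =>
    (norm_sub_le _ _).trans (add_le_add (hx v k) (hy v k))
  have hid := half_id (hL.mono_set hsub)
    (fun z hz => (hprod.analyticAt ((isOpen_half β).mem_nhds hz)).meromorphicAt)
    (fun z _ hz => by
      have h1 := eul_mul hq hs (a := fun v k => x v k - y v k) (b := y) hsd hy hz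
      have h2 : (fun v k => x v k - y v k + y v k) = x := by
        funext v k
        ring
      rw [h2] at h1
      rw [hLe z hz, hLpe z hz, h1, ← eul_eq hq, mul_comm]) hsβ
  rw [meromorphicOrderAt_congr hid]
  exact (hprod.analyticAt ((isOpen_half β).mem_nhds hsβ)).meromorphicOrderAt_nonneg

/-- If the function does not have a pole at `0`, then the series of its logarithm converges at `0`. -/
lemma summable_zero {ι : Type*} {a l : ι → ℝ} (ha : ∀ i, 0 ≤ a i) (hl : ∀ i, 0 ≤ l i)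
    (h : Conv (fun i => (a i : ℂ)) l 0) {F : ℂ → ℂ}
    (hF : ∀ s : ℂ, 0 < s.re → F =ᶠ[𝓝[≠] s] fun z => cexp (gds (fun i => (a i : ℂ)) l z))
    (h0 : MeromorphicAt F 0) (h1 : 0 ≤ meromorphicOrderAt F 0) : Summable a := by
  obtain ⟨g, hg, hFg⟩ := h0.meromorphicOrderAt_nonneg_iff.1 h1
  have hgc : ∀ᶠ z in 𝓝 (0 : ℂ), ContinuousAt g z := by
    filter_upwards [hg.eventually_analyticAt] with z hz using hz.continuousAt
  have hgb : ∀ᶠ z in 𝓝 (0 : ℂ), ‖g z‖ < ‖g 0‖ + 1 :=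
    hg.continuousAt.norm.eventually_lt_const (lt_add_one _)
  rw [eventuallyEq_nhdsWithin_iff] at hFg
  obtain ⟨r, hr0, hr⟩ := Metric.eventually_nhds_iff_ball.1 (hgc.and (hgb.and hFg))
  have hexp : DifferentiableOn ℂ (fun s => cexp (gds (fun i => (a i : ℂ)) l s)) {s | (0 : ℝ) < s.re} :=
    (h.differentiableOn hl).cexp
  -- bound on the real line
  have key : ∀ σ : ℝ, 0 < σ → σ < r → ∑' i, a i * Real.exp (-(l i) * σ) ≤ Real.log (‖g 0‖ + 1) := by
    intro σ h0σ hσr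
    have hσb : (σ : ℂ) ∈ Metric.ball (0 : ℂ) r := by
      rw [Metric.mem_ball, dist_zero_right, Complex.norm_real, Real.norm_of_nonneg h0σ.le]
      exact hσr
    have hσre : (0 : ℝ) < ((σ : ℝ) : ℂ).re := by rwa [Complex.ofReal_re]
    have hσne : (σ : ℂ) ≠ 0 := by exact_mod_cast h0σ.ne'
    have hc2 : ContinuousAt (fun s => cexp (gds (fun i => (a i : ℂ)) l s)) (σ : ℂ) :=
      (hexp.differentiableAt ((isOpen_half 0).mem_nhds hσre)).continuousAt
    have hge : g =ᶠ[𝓝[≠] (σ : ℂ)] fun s => cexp (gds (fun i => (a i : ℂ)) l s) := by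
      have h4 : {z : ℂ | z ∈ Metric.ball (0 : ℂ) r ∧ z ≠ 0} ∈ 𝓝 (σ : ℂ) := by
        exact (Metric.isOpen_ball.inter isOpen_compl_singleton).mem_nhds ⟨hσb, hσne⟩
      filter_upwards [hF _ hσre, nhdsWithin_le_nhds h4] with z hz hz2
      rw [← (hr z hz2.1).2.2 hz2.2, hz]
    have h5 := (((hr _ hσb).1).eventuallyEq_nhds_iff_eventuallyEq_nhdsNE hc2).1 hge
    have h6 : g (σ : ℂ) = cexp (gds (fun i => (a i : ℂ)) l (σ : ℂ)) := h5.eq_of_nhds
    have h7 : ‖g (σ : ℂ)‖ < ‖g 0‖ + 1 := (hr _ hσb).2.1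
    rw [h6, gds_real, Complex.norm_exp, Complex.ofReal_re] at h7
    have h8 := (Real.lt_log_iff_exp_lt (by positivity)).2 h7
    exact h8.le
  refine summable_of_sum_le (c := Real.log (‖g 0‖ + 1)) ha fun T => ?_
  have hlim : Tendsto (fun σ : ℝ => ∑ i ∈ T, a i * Real.exp (-(l i) * σ)) (𝓝[>] 0)
      (𝓝 (∑ i ∈ T, a i * Real.exp (-(l i) * 0))) := by
    refine (Continuous.tendsto ?_ 0).mono_left nhdsWithin_le_nhds
    fun_prop
  simp only [mul_zero, Real.exp_zero, mul_one] at hlim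
  refine le_of_tendsto hlim ?_
  filter_upwards [Ioo_mem_nhdsGT hr0] with σ hσ
  refine le_trans ?_ (key σ hσ.1 hσ.2)
  refine Summable.sum_le_tsum T (fun i _ => mul_nonneg (ha i) (Real.exp_pos _).le) ?_
  have := h σ hσ.1
  refine this.congr fun i => ?_
  rw [Complex.norm_real, Real.norm_of_nonneg (ha i)]

end Pool.Agent.E8helper33.AH
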