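import Pool.Agent.E8helper33.AH.Num
import Pool.Agent.W63.HS.TR
import Pool.Agent.Y788.VRep

/-!
# Representations with a cubic or quadratic character whose non-kernel is nearly scalar
-/

set_option autoImplicit false
set_option linter.unusedSectionVars false

namespace Pool.Agent.E8helper33.AH

open Finset Pool.Agent.H302R2

/-- the eigenvalues, with multiplicity -/
noncomputable def eig {n : ℕ} (f : Module.End ℂ (Fin n → ℂ)) : Multiset ℂ := f.charpoly.roots

section lin

variable {n : ℕ} (f : Module.End ℂ (Fin n → ℂ))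

lemma sum_eig_pow (k : ℕ) : ((eig f).map fun x => x ^ k).sum = LinearMap.trace ℂ (Fin n → ℂ) (f ^ k) :=
  (Pool.Agent.W63.HS.TR.main ℂ (Fin n → ℂ) f k).symm

lemma card_eig : (eig f).card = n := by
  unfold eig
  rw [← (IsAlgClosed.splits f.charpoly).natDegree_eq_card_roots, LinearMap.charpoly_natDegree,
    Module.finrank_fin_fun]

lemma prod_eig : (eig f).prod = LinearMap.det f :=
  (Module.End.det_eq_prod_roots_charpoly_of_splits (IsAlgClosed.splits f.charpoly)).symm

lemma exists_fun {m : Multiset ℂ} (hm : m.card = n) : ∃ e : Fin n → ℂ, univ.val.map e = m := by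
  subst hm
  refine ⟨fun i => m.toList.get (i.cast (by simp)), ?_⟩
  rw [Fin.univ_val_map]
  conv_rhs => rw [← Multiset.coe_toList m]
  congr 1
  apply List.ext_get
  · simp
  · intro i h1 h2
    simp

lemma exists_eig : ∃ e : Fin n → ℂ, (∀ i, e i ∈ eig f) ∧
    (∀ k : ℕ, ∑ i, e i ^ k = LinearMap.trace ℂ (Fin n → ℂ) (f ^ k)) ∧ ∏ i, e i = LinearMap.det f := by
  obtain ⟨e, he⟩ := exists_fun (card_eig f)
  refine ⟨e, fun i => ?_, fun k => ?_, ?_⟩
  · rw [← he]
    exact Multiset.mem_map_of_mem _ (mem_univ_val i)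
  · rw [← sum_eig_pow, ← he, Multiset.map_map]
    rfl
  · rw [← prod_eig, ← he]
    rfl

lemma eig_pow {r : ℂ} (h : r ∈ eig f) {m : ℕ} {μ : ℂ} (hf : f ^ m = μ • 1) : r ^ m = μ := by
  have h1 : f.HasEigenvalue r := by
    rw [Module.End.hasEigenvalue_iff_isRoot_charpoly]
    exact (Polynomial.mem_roots'.1 h).2
  obtain ⟨v, hv⟩ := h1.exists_hasEigenvector
  have h2 := hv.pow_apply m
  rw [hf] at h2
  have h3 : (μ - r ^ m) • v = 0 := by
    rw [sub_smul, ← h2]
    simp
  rcases smul_eq_zero.1 h3 with h4 | h4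
  · exact (sub_eq_zero.1 h4).symm
  · exact absurd h4 hv.2

end lin

section rep

variable {G : Type} [Group G] [Finite G] {n : ℕ} (ρ : Representation ℂ G (Fin n → ℂ))

lemma scal_norm (hn : 0 < n) {g : G} {m : ℕ} {μ : ℂ} (h : ρ g ^ m = μ • 1) : ‖μ‖ = 1 := by
  have h2 : μ ^ Nat.card G = 1 := by
    have h3 : (ρ (g ^ m)) ^ Nat.card G = 1 := by
      rw [← map_pow, pow_card_eq_one', map_one]
    rw [map_pow, h, smul_pow, one_pow] at h3
    have h4 := congrArg (LinearMap.trace ℂ (Fin n → ℂ)) h3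
    rw [map_smul, smul_eq_mul, LinearMap.trace_one, Module.finrank_fin_fun] at h4
    have h5 : (n : ℂ) ≠ 0 := by exact_mod_cast hn.ne'
    exact mul_right_cancel₀ h5 (by rw [h4, one_mul])
  exact Complex.norm_eq_one_of_pow_eq_one h2 Nat.card_pos.ne'

lemma char_pow (g : G) (k : ℕ) : ρ.character (g ^ k) = LinearMap.trace ℂ (Fin n → ℂ) (ρ g ^ k) := by
  unfold Representation.character
  rw [map_pow]

lemma norm_sq_char (g : G) : ρ.character g * ρ.character g⁻¹ = ((‖ρ.character g‖ ^ 2 : ℝ) : ℂ) := by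
  rw [Pool.Agent.W446.AS.heilbronn_star (Pool.Agent.Y788.rep_heilbronn ρ) g]
  have := Complex.mul_conj (ρ.character g)
  rw [Complex.normSq_eq_norm_sq] at this
  exact this

/-- the norm of a nonzero character is at least one -/
lemma norm_sum_ge (hn : 0 < n) : (Nat.card G : ℝ) ≤ ∑ᶠ g : G, ‖ρ.character g‖ ^ 2 := by
  classical
  have : Fintype G := Fintype.ofFinite G
  have hG : (Nat.card G : ℂ) ≠ 0 := by exact_mod_cast Nat.card_pos.ne'
  have : Invertible (Nat.card G : ℂ) := invertibleOfNonzero hG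
  have h := Representation.card_inv_mul_sum_char_mul_char_eq_finrank ρ ρ
  have h1 : ∑ g : G, ρ.character g * ρ.character g⁻¹ = ((∑ g : G, ‖ρ.character g‖ ^ 2 : ℝ) : ℂ) := by
    push_cast
    refine Finset.sum_congr rfl fun g _ => ?_
    rw [norm_sq_char]
    push_cast
    rfl
  rw [h1] at h
  have h2 : 1 ≤ Module.finrank ℂ (Representation.IntertwiningMap ρ ρ) := by
    have : Nontrivial (Fin n → ℂ) := by
      have : Nonempty (Fin n) := ⟨⟨0, hn⟩⟩
      infer_instance
    have h3 : Nontrivial (Representation.IntertwiningMap ρ ρ) := by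
      refine ⟨⟨Representation.IntertwiningMap.id ρ, 0, ?_⟩⟩
      intro h4
      obtain ⟨x, hx⟩ := exists_ne (0 : Fin n → ℂ)
      exact hx (by simpa using congrArg (fun f => f x) h4)
    exact Module.finrank_pos
  rw [finsum_eq_sum_of_fintype]
  have h3 : (((Nat.card G : ℝ))⁻¹ * ∑ g : G, ‖ρ.character g‖ ^ 2 : ℝ) =
      (Module.finrank ℂ (Representation.IntertwiningMap ρ ρ) : ℝ) := by
    apply Complex.ofReal_injective
    push_cast
    push_cast at h
    exact h
  have h4 : (1 : ℝ) ≤ (Nat.card G : ℝ)⁻¹ * ∑ g : G, ‖ρ.character g‖ ^ 2 := by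
    rw [h3]; exact_mod_cast h2
  have h5 : (0 : ℝ) < Nat.card G := by exact_mod_cast Nat.card_pos
  calc (Nat.card G : ℝ) = Nat.card G * 1 := by ring
    _ ≤ Nat.card G * ((Nat.card G : ℝ)⁻¹ * ∑ g : G, ‖ρ.character g‖ ^ 2) := by gcongr
    _ = ∑ g : G, ‖ρ.character g‖ ^ 2 := by field_simp

lemma norm_sum_irr [ρ.IsIrreducible] : ∑ᶠ g : G, ‖ρ.character g‖ ^ 2 = (Nat.card G : ℝ) := by
  classical
  have : Fintype G := Fintype.ofFinite G
  have h := Pool.Agent.H541R3.ART.pair_self (χ := ρ.character) ⟨n, ρ, inferInstance, rfl⟩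
  have h1 : ∑ g : G, ρ.character g * ρ.character g⁻¹ = ((∑ g : G, ‖ρ.character g‖ ^ 2 : ℝ) : ℂ) := by
    push_cast
    refine Finset.sum_congr rfl fun g _ => ?_
    rw [norm_sq_char]
    push_cast
    rfl
  rw [h1] at h
  rw [finsum_eq_sum_of_fintype]
  exact_mod_cast h

/-- If an irreducible character has absolute value at least one outside a subgroup, it has absolute
value one there. -/
lemma norm_one_off [ρ.IsIrreducible] (hn : 0 < n) (N : Subgroup G)
    (h : ∀ g : G, g ∉ N → 1 ≤ ‖ρ.character g‖ ^ 2) {g : G} (hg : g ∉ N) : ‖ρ.character g‖ = 1 := by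
  classical
  have : Fintype G := Fintype.ofFinite G
  have h1 := norm_sum_irr ρ
  have h2 := norm_sum_ge (ρ.comp N.subtype) hn
  rw [finsum_eq_sum_of_fintype] at h1 h2
  have h3 : ∑ x : N, ‖Representation.character (ρ.comp N.subtype) x‖ ^ 2 =
      ∑ x ∈ univ.filter (fun x : G => x ∈ N), ‖ρ.character x‖ ^ 2 := by
    rw [Finset.sum_subtype (univ.filter fun x : G => x ∈ N) (p := fun x => x ∈ N) (by simp)
      (fun x => ‖ρ.character x‖ ^ 2)]
    rfl
  rw [h3] at h2
  have h4 := Finset.sum_filter_add_sum_filter_not univ (fun x : G => x ∈ N) (fun x => ‖ρ.character x‖ ^ 2)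
  have h5 : ∑ x ∈ univ.filter (fun x : G => x ∉ N), (‖ρ.character x‖ ^ 2 - 1) ≤ 0 := by
    rw [Finset.sum_sub_distrib]
    have h6 : ((univ.filter (fun x : G => x ∉ N)).card : ℝ) + Nat.card N = Nat.card G := by
      have h7 := Finset.card_filter_add_card_filter_not (s := (univ : Finset G)) (fun x : G => x ∈ N)
      have h8 : (univ.filter (fun x : G => x ∈ N)).card = Nat.card N := by
        rw [Nat.card_eq_fintype_card, Fintype.card_subtype]
      rw [h8, Finset.card_univ, ← Nat.card_eq_fintype_card] at h7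
      have : ((univ.filter (fun x : G => x ∉ N)).card) + Nat.card N = Nat.card G := by
        rw [← h7]; ring
      exact_mod_cast this
    rw [Finset.sum_const, nsmul_eq_mul, mul_one]
    linarith
  have h6 := (Finset.sum_eq_zero_iff_of_nonneg (fun x hx => by
    have := h x (Finset.mem_filter.1 hx).2
    linarith)).1 (le_antisymm h5 (Finset.sum_nonneg fun x hx => by
      have := h x (Finset.mem_filter.1 hx).2
      linarith)) g (Finset.mem_filter.2 ⟨mem_univ _, hg⟩)
  have h7 : ‖ρ.character g‖ ^ 2 = 1 := by linarith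
  exact (pow_eq_one_iff_of_nonneg (norm_nonneg _) (by norm_num)).1 h7

/-- the exponent: `3` for cubic characters, `4` for quadratic ones -/
def expo (l : ℕ) : ℕ := if l = 2 then 4 else l

lemma one_le_char {l : ℕ} (hl : l = 2 ∨ l = 3) (hn : ¬ l ∣ n) {g : G} {μ : ℂ}
    (h : ρ g ^ expo l = μ • 1) : 1 ≤ ‖ρ.character g‖ ^ 2 := by
  have hn0 : 0 < n := by
    rcases Nat.eq_zero_or_pos n with h0 | h0
    · exact absurd (h0 ▸ dvd_zero l) hn
    · exact h0
  obtain ⟨e, he, hs, -⟩ := exists_eig (ρ g)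
  have h1 : ρ.character g = ∑ i, e i := by
    have := hs 1
    simp only [pow_one] at this
    rw [this]
    rfl
  rw [h1]
  rcases hl with rfl | rfl
  · exact four_one_le hn e (scal_norm ρ hn0 h) fun i => eig_pow _ (he i) h
  · exact cube_one_le hn e (scal_norm ρ hn0 h) fun i => eig_pow _ (he i) h

/-- **The local comparison** at a place with Frobenius element `g`, `η g ≠ 1`. -/
theorem local_gap {l : ℕ} (hl : l = 2 ∨ l = 3) (hn : ¬ l ∣ n) {g : G} {μ : ℂ}
    (h : ρ g ^ expo l = μ • 1) (h1 : ∀ k : ℕ, ¬ l ∣ k → ‖ρ.character (g ^ k)‖ = 1)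
    {a : Fin n → ℂ} (ha : univ.val.map (fun i => a i ^ l) = eig (ρ g ^ l))
    (hp : ∏ i, a i = LinearMap.det (ρ g)) (k : ℕ) :
    ‖ρ.character (g ^ k)‖ ^ 2 ≤ ‖∑ i, a i ^ k‖ ^ 2 ∧
      ‖ρ.character (g ^ k) - ∑ i, a i ^ k‖ ≤ 1 * (‖∑ i, a i ^ k‖ ^ 2 - ‖ρ.character (g ^ k)‖ ^ 2) := by
  have hn0 : 0 < n := by
    rcases Nat.eq_zero_or_pos n with h0 | h0
    · exact absurd (h0 ▸ dvd_zero l) hn
    · exact h0
  have hmem : ∀ i, a i ^ l ∈ eig (ρ g ^ l) := fun i => by
    rw [← ha]
    exact Multiset.mem_map_of_mem (fun i => a i ^ l) (mem_univ_val i)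
  have hpow : ∀ j : ℕ, ∑ i, a i ^ (l * j) = ρ.character (g ^ (l * j)) := by
    intro j
    rw [char_pow, pow_mul, ← sum_eig_pow, ← ha, Multiset.map_map]
    change _ = ∑ i, (a i ^ l) ^ j
    refine Finset.sum_congr rfl fun i _ => ?_
    rw [pow_mul]
  by_cases hk : l ∣ k
  · obtain ⟨j, rfl⟩ := hk
    rw [hpow j]
    refine ⟨le_rfl, ?_⟩
    rw [sub_self, norm_zero, sub_self, mul_zero]
  · have hchar := h1 k hk
    obtain ⟨e, he, hs, hd⟩ := exists_eig (ρ g)
    have hμ := scal_norm ρ hn0 h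
    have hμk : ‖μ ^ k‖ = 1 := by rw [norm_pow, hμ, one_pow]
    have hsk : ρ.character (g ^ k) = ∑ i, e i ^ k := by rw [char_pow, ← hs k]
    have hpk : ∏ i, e i ^ k = ∏ i, a i ^ k := by
      rw [Finset.prod_pow, Finset.prod_pow, hd, hp]
    rw [hsk] at hchar ⊢
    have hee : ∀ i, (e i ^ k) ^ expo l = μ ^ k := fun i => by
      rw [← pow_mul, mul_comm, pow_mul, eig_pow _ (he i) h]
    rcases hl with rfl | rfl
    · have haa : ∀ i, (a i ^ k) ^ 4 = μ ^ k := fun i => by
        have h2 : (a i ^ 2) ^ 2 = μ := by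
          refine eig_pow _ (hmem i) ?_
          rw [← pow_mul]
          exact h
        have h3 : (a i ^ k) ^ 4 = ((a i ^ 2) ^ 2) ^ k := by ring
        rw [h3, h2]
      refine four_gap hn (fun i => e i ^ k) (fun i => a i ^ k) hμk hee haa hpk ?_ hchar
      have h4 := hpow k
      rw [char_pow, ← hs (2 * k)] at h4
      have h5 : ∀ x : ℂ, (x ^ k) ^ 2 = x ^ (2 * k) := fun x => by rw [← pow_mul, mul_comm]
      simp only [h5]
      exact h4.symm
    · have haa : ∀ i, (a i ^ k) ^ 3 = μ ^ k := fun i => by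
        have h2 : (a i ^ 3) ^ 1 = μ := by
          refine eig_pow _ (hmem i) ?_
          rw [pow_one]
          exact h
        have h3 : (a i ^ k) ^ 3 = ((a i ^ 3) ^ 1) ^ k := by ring
        rw [h3, h2]
      exact cube_gap hn (fun i => e i ^ k) (fun i => a i ^ k) hμk hee haa hpk hchar

end rep

end Pool.Agent.E8helper33.AH
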