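import Pool.Agent.E8helper33.AH.Core
import Pool.Agent.E8helper33.AH.Rep
import Pool.Agent.E8helper33.AH.Conj
import Pool.Agent.H921R2.TatePole.Dedekind
import Pool.Agent.R362.NearGen2

/-!
# Artin L-functions and descent data
-/

set_option autoImplicit false

namespace Pool.Agent.E8helper33.AH

open NumberField IsDedekindDomain Finset

section

variable {K E : Type} [Field K] [NumberField K] [Field E] [NumberField E] [Algebra K E]

/-- `g` is a Frobenius element at the finite place `v` of `K` in the extension `E/K`: there is a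
prime `w` of `E` above `v` with `g x ≡ x ^ (N v) mod w` for all integers `x` of `E`. -/
def IsFrob (v : HeightOneSpectrum (𝓞 K)) (g : E ≃ₐ[K] E) : Prop :=
  ∃ w : HeightOneSpectrum (𝓞 E), w.asIdeal.comap (algebraMap (𝓞 K) (𝓞 E)) = v.asIdeal ∧
    ∀ x y : 𝓞 E, (y : E) = g x → y - x ^ Ideal.absNorm v.asIdeal ∈ w.asIdeal

/-- the finite places of `K` outside `S` -/
abbrev Pl (S : Set (HeightOneSpectrum (𝓞 K))) := {v : HeightOneSpectrum (𝓞 K) // v ∉ S}

/-- the norm of a place -/
noncomputable def nrm {S : Set (HeightOneSpectrum (𝓞 K))} (v : Pl S) : ℕ := Ideal.absNorm v.1.asIdeal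

/-- the right half plane -/
def Half : Set ℂ := {s : ℂ | 0 < s.re}

/-- `F` is a meromorphic function in the half plane `Re s > 0`, which for `Re s > 1` is the Euler
product `exp (∑_{v ∉ S} ∑_{k ≥ 1} a_v(k) / (k (N v) ^ (k s)))`. -/
structure Continues {S : Set (HeightOneSpectrum (𝓞 K))} (a : Pl S → ℕ → ℂ) (F : ℂ → ℂ) : Prop where
  mero : MeromorphicOn F Half
  eq : ∀ s : ℂ, 1 < s.re → F s = Complex.exp (∑' x : Pl S × ℕ,
    a x.1 (x.2 + 1) / (((x.2 + 1 : ℕ) : ℂ) * (nrm x.1 : ℂ) ^ (((x.2 + 1 : ℕ) : ℂ) * s)))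

variable {n : ℕ} {S : Set (HeightOneSpectrum (𝓞 K))}

/-- The Artin L-functions (without the Euler factors at `S`) `D` of `ρ ⊗ ρ^*` and `D'` of
`ρ ⊗ ρ^* ⊗ η`, and their meromorphic continuation (Brauer). Since `ρ` is irreducible, `D` has a pole
at `1`. -/
structure ArtinSide (frob : Pl S → (E ≃ₐ[K] E)) (ρ : Representation ℂ (E ≃ₐ[K] E) (Fin n → ℂ))
    (η : (E ≃ₐ[K] E) →* ℂˣ) (D D' : ℂ → ℂ) : Prop where
  square : Continues (fun v k => ((‖ρ.character (frob v ^ k)‖ ^ 2 : ℝ) : ℂ)) D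
  twisted : Continues (fun v k => ((η (frob v) : ℂˣ) : ℂ) ^ k * ((‖ρ.character (frob v ^ k)‖ ^ 2 : ℝ) : ℂ)) D'
  pole : meromorphicOrderAt D 1 < 0

/-- What is used of the descent `π` to `K` of the cuspidal automorphic representation of `GL(n)` over
the cyclic extension `K_η / K` of prime degree `l` cut out by `η`, which belongs to the restriction
of `ρ` (Arthur and Clozel), with Satake parameters `α` outside `S` and with central character
`det ρ`; and of the Rankin-Selberg L-functions `R` of `π × π~` and `R'` of `π × π~ ⊗ η` (Jacquet,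
Piatetski-Shapiro and Shalika, Moeglin and Waldspurger). -/
structure Descent (frob : Pl S → (E ≃ₐ[K] E)) (ρ : Representation ℂ (E ≃ₐ[K] E) (Fin n → ℂ))
    (η : (E ≃ₐ[K] E) →* ℂˣ) (l : ℕ) (α : Pl S → Fin n → ℂ) (R R' : ℂ → ℂ) : Prop where
  /-- base change at the places of `K` which split in `K_η` -/
  split : ∀ v, η (frob v) = 1 → univ.val.map (α v) = (ρ (frob v)).charpoly.roots
  /-- base change at the places of `K` which are inert in `K_η` -/
  inert : ∀ v, η (frob v) ≠ 1 → univ.val.map (fun i => α v i ^ l) = (ρ (frob v) ^ l).charpoly.roots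
  /-- the central character of `π` is `det ρ` -/
  det : ∀ v, ∏ i, α v i = LinearMap.det (ρ (frob v))
  /-- `L(s, π × π~)` -/
  square : Continues (fun v k => ((‖∑ i, α v i ^ k‖ ^ 2 : ℝ) : ℂ)) R
  /-- `L(s, π × π~)` has no pole but the one at `1` -/
  square_hol : ∀ s ∈ Half, s ≠ 1 → 0 ≤ meromorphicOrderAt R s
  /-- which is at most simple -/
  simple : ((-1 : ℤ) : WithTop ℤ) ≤ meromorphicOrderAt R 1
  /-- `L(s, π × π~ ⊗ η)` -/
  twisted : Continues (fun v k => ((η (frob v) : ℂˣ) : ℂ) ^ k * ((‖∑ i, α v i ^ k‖ ^ 2 : ℝ) : ℂ)) R'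

/-- A twist: `T` has the local traces `t_v(k)`, bounded by `m`; `L` is the L-function (without the
Euler factors at `S`) of `ρ ⊗ T`, and the L-function `P` of `π ⊗ T` is holomorphic. For `t = 1` these
are `L(s, ρ)` and `L(s, π)` (Godement and Jacquet); for a unitary Hecke character `T`, where
`t_v(k) = T(v) ^ k`, and `t_v(k) = 0` at the places at which `T` is ramified, these are `L(s, ρ ⊗ T)`
and `L(s, π ⊗ T)`. -/
structure Twist (frob : Pl S → (E ≃ₐ[K] E)) (ρ : Representation ℂ (E ≃ₐ[K] E) (Fin n → ℂ))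
    (α : Pl S → Fin n → ℂ) (t : Pl S → ℕ → ℂ) (m : ℝ) (L P : ℂ → ℂ) : Prop where
  bound : ∀ v k, ‖t v k‖ ≤ m
  artin : Continues (fun v k => t v k * ρ.character (frob v ^ k)) L
  standard : Continues (fun v k => t v k * ∑ i, α v i ^ k) P
  hol : DifferentiableOn ℂ P Half

/-- `F` has the same order at `s` and at `1 - conj s` in the strip `0 < Re s < 1`. This is the
functional equation of `L(s, ρ ⊗ T)`: the factors at infinity and at `S` have neither zeros nor poles
in the strip. -/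
def Symmetric (F : ℂ → ℂ) : Prop := ∀ s : ℂ, 0 < s.re → s.re < 1 →
  meromorphicOrderAt F s = meromorphicOrderAt F (1 - (starRingEnd ℂ) s)

/-- The number `β` controls the poles of the L-functions of all twists `ρ ⊗ T`: all poles `s` in
`Re s > 0` have `Re s ≤ β`, and also `Re s ≥ 1 - β` if the L-function is symmetric. -/
def Controls (frob : Pl S → (E ≃ₐ[K] E)) (ρ : Representation ℂ (E ≃ₐ[K] E) (Fin n → ℂ))
    (α : Pl S → Fin n → ℂ) (β : ℝ) : Prop :=
  ∀ (t : Pl S → ℕ → ℂ) (m : ℝ) (L P : ℂ → ℂ), Twist frob ρ α t m L P →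
    ∀ s ∈ Half, meromorphicOrderAt L s < 0 → s.re ≤ β ∧ (Symmetric L → 1 - β ≤ s.re)

/-- `D` is, up to Euler factors, the zeta function of the number field `M`: for `Re s > 1` one has
`ζ_M(s) = D(s) Φ(s)`, with `Φ` holomorphic and without zeros for `Re s > 0`. -/
def IsZetaUpTo (M : Type) [Field M] [NumberField M] (D : ℂ → ℂ) : Prop :=
  ∃ Φ : ℂ → ℂ, DifferentiableOn ℂ Φ Half ∧ (∀ s ∈ Half, Φ s ≠ 0) ∧
    ∀ s : ℂ, 1 < s.re → dedekindZeta M s = D s * Φ s

end

end Pool.Agent.E8helper33.AH
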