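import Pool.Agent.E8helper33.AH.Landau

/-!
# Landau's lemma, global form, and Euler products
-/

set_option autoImplicit false

open Complex Filter Topology Set
open scoped ComplexOrder Nat

namespace Pool.Agent.E8helper33.AH

/-- identity theorem for meromorphic functions -/
lemma mero_id {U : Set ℂ} (hU : IsPreconnected U) {f g : ℂ → ℂ} (hf : MeromorphicOn f U)
    (hg : MeromorphicOn g U) {x y : ℂ} (hx : x ∈ U) (hy : y ∈ U) (hfg : f =ᶠ[𝓝[≠] x] g) :
    f =ᶠ[𝓝[≠] y] g := by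
  have h : MeromorphicOn (f - g) U := hf.sub hg
  have h1 : meromorphicOrderAt (f - g) x = ⊤ := by
    rw [meromorphicOrderAt_eq_top_iff]
    filter_upwards [hfg] with z hz
    rw [Pi.sub_apply, hz, sub_self]
  have h2 : meromorphicOrderAt (f - g) y = ⊤ := by
    by_contra h3
    exact h.meromorphicOrderAt_ne_top_of_isPreconnected hU hy hx h3 h1
  rw [meromorphicOrderAt_eq_top_iff] at h2
  filter_upwards [h2] with z hz
  exact sub_eq_zero.1 hz

lemma half_preconnected (σ : ℝ) : IsPreconnected {s : ℂ | σ < s.re} :=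
  (convex_halfSpace_re_gt σ).isPreconnected

/-- identity theorem on half planes -/
lemma half_id {σ : ℝ} {f g : ℂ → ℂ} (hf : MeromorphicOn f {s | σ < s.re})
    (hg : MeromorphicOn g {s | σ < s.re}) (h : ∀ s : ℂ, σ < s.re → 1 < s.re → f s = g s) {y : ℂ}
    (hy : σ < y.re) : f =ᶠ[𝓝[≠] y] g := by
  have hx : ((max σ 1 + 1 : ℝ) : ℂ) ∈ {s : ℂ | σ < s.re} := by
    show σ < ((max σ 1 + 1 : ℝ) : ℂ).re
    rw [Complex.ofReal_re]
    linarith [le_max_left σ 1]
  refine mero_id (half_preconnected σ) hf hg hx hy ?_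
  have h1 : {s : ℂ | max σ 1 < s.re} ∈ 𝓝 (((max σ 1 + 1 : ℝ) : ℂ)) :=
    (isOpen_half _).mem_nhds (by
      show max σ 1 < ((max σ 1 + 1 : ℝ) : ℂ).re
      rw [Complex.ofReal_re]
      linarith)
  filter_upwards [nhdsWithin_le_nhds h1] with z hz
  have hz' : max σ 1 < z.re := hz
  exact h z (lt_of_le_of_lt (le_max_left _ _) hz') (lt_of_le_of_lt (le_max_right _ _) hz')

section landau
variable {ι : Type*} {a l : ι → ℝ}

/-- summability at a point gives convergence to the right -/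
lemma conv_of_summable (ha : ∀ i, 0 ≤ a i) (hl : ∀ i, 0 ≤ l i) {x : ℝ}
    (h : Summable fun i => a i * Real.exp (-(l i) * x)) : Conv (fun i => (a i : ℂ)) l x := by
  intro τ hτ
  refine Summable.of_nonneg_of_le (fun i => by positivity) (fun i => ?_) h
  rw [Complex.norm_real, Real.norm_of_nonneg (ha i)]
  refine mul_le_mul_of_nonneg_left (Real.exp_le_exp.2 ?_) (ha i)
  nlinarith [hl i]

/-- **Landau's lemma.** If `F` is meromorphic in the right half plane and is the exponential of a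
Dirichlet series with nonnegative coefficients for `Re s > 1`, then the abscissa of convergence is
not positive, or `F` has a pole there. -/
theorem landau_global (ha : ∀ i, 0 ≤ a i) (hl : ∀ i, 0 ≤ l i) (h1 : Conv (fun i => (a i : ℂ)) l 1)
    {F : ℂ → ℂ} (hF : MeromorphicOn F {s | 0 < s.re})
    (hFe : ∀ s : ℂ, 1 < s.re → F s = cexp (gds (fun i => (a i : ℂ)) l s)) :
    ∃ β : ℝ, 0 ≤ β ∧ β ≤ 1 ∧ Conv (fun i => (a i : ℂ)) l β ∧
      (0 < β → meromorphicOrderAt F (β : ℂ) < 0) := by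
  set S : Set ℝ := {σ | 0 ≤ σ ∧ Conv (fun i => (a i : ℂ)) l σ} with hS
  have h1S : (1 : ℝ) ∈ S := ⟨zero_le_one, h1⟩
  have hbd : BddBelow S := ⟨0, fun x hx => hx.1⟩
  have hβ0 : 0 ≤ sInf S := le_csInf ⟨1, h1S⟩ fun x hx => hx.1
  have hconv : Conv (fun i => (a i : ℂ)) l (sInf S) := by
    intro τ hτ
    obtain ⟨σ, hσ, hστ⟩ := exists_lt_of_csInf_lt ⟨1, h1S⟩ hτ
    exact hσ.2 τ hστ
  refine ⟨sInf S, hβ0, csInf_le hbd h1S, hconv, fun hβ => ?_⟩
  set β : ℝ := sInf S with hβdef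
  by_contra hneg
  have hmero : MeromorphicAt F (β : ℂ) := hF _ (by show 0 < ((β : ℝ) : ℂ).re; rwa [Complex.ofReal_re])
  obtain ⟨g, hg, hFg⟩ := hmero.meromorphicOrderAt_nonneg_iff.1 (not_lt.1 hneg)
  have hgd : ∀ᶠ z in 𝓝 (β : ℂ), DifferentiableAt ℂ g z := by
    filter_upwards [hg.eventually_analyticAt] with z hz using hz.differentiableAt
  rw [eventuallyEq_nhdsWithin_iff] at hFg
  obtain ⟨r, hr0, hr⟩ := Metric.eventually_nhds_iff_ball.1 (hgd.and hFg)
  set ρ : ℝ := min r β with hρ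
  have hρ0 : 0 < ρ := lt_min hr0 hβ
  set x : ℝ := β + ρ / 4 with hx
  have hballs : Metric.ball (x : ℂ) (3 * ρ / 4) ⊆ Metric.ball (β : ℂ) r := by
    refine Metric.ball_subset_ball' ?_
    have h2 : dist (x : ℂ) (β : ℂ) = ρ / 4 := by
      rw [Complex.dist_eq, ← Complex.ofReal_sub, Complex.norm_real, hx, add_sub_cancel_left,
        Real.norm_of_nonneg (by positivity)]
    rw [h2]
    have := min_le_left r β
    linarith
  have hgx : DifferentiableOn ℂ g (Metric.ball (x : ℂ) (3 * ρ / 4)) := fun z hz =>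
    (hr z (hballs hz)).1.differentiableWithinAt
  have hxβ : β < x := by rw [hx]; linarith
  have hxre : β < ((x : ℝ) : ℂ).re := by rwa [Complex.ofReal_re]
  -- `F` is the exponential near `x`
  have hexp : DifferentiableOn ℂ (fun s => cexp (gds (fun i => (a i : ℂ)) l s)) {s | β < s.re} :=
    (hconv.differentiableOn hl).cexp
  have hexpm : MeromorphicOn (fun s => cexp (gds (fun i => (a i : ℂ)) l s)) {s | β < s.re} :=
    fun z hz => (hexp.analyticAt ((isOpen_half β).mem_nhds hz)).meromorphicAt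
  have hid := half_id (hF.mono_set fun z (hz : β < z.re) => (lt_of_lt_of_le' hz hβ0 : 0 < z.re)) hexpm
    (fun s _ hs => hFe s hs) hxre
  have hge : g =ᶠ[𝓝 (x : ℂ)] fun s => cexp (gds (fun i => (a i : ℂ)) l s) := by
    have h3 : g =ᶠ[𝓝[≠] (x : ℂ)] fun s => cexp (gds (fun i => (a i : ℂ)) l s) := by
      have h4 : Metric.ball (x : ℂ) (ρ / 4) ∈ 𝓝 (x : ℂ) := Metric.ball_mem_nhds _ (by positivity)
      filter_upwards [hid, nhdsWithin_le_nhds h4] with z hz hz2
      have hz3 : z ∈ Metric.ball (β : ℂ) r := hballs (Metric.ball_subset_ball (by linarith) hz2)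
      have hz4 : z ≠ (β : ℂ) := by
        rintro rfl
        rw [Metric.mem_ball, Complex.dist_eq, ← Complex.ofReal_sub, Complex.norm_real, hx] at hz2
        have h5 : β - (β + ρ / 4) = -(ρ / 4) := by ring
        rw [h5, norm_neg, Real.norm_of_nonneg (by positivity)] at hz2
        exact lt_irrefl _ hz2
      rw [← (hr z hz3).2 hz4, hz]
    have hc1 : ContinuousAt g (x : ℂ) :=
      (hgx.differentiableAt (Metric.ball_mem_nhds _ (by positivity))).continuousAt
    have hc2 : ContinuousAt (fun s => cexp (gds (fun i => (a i : ℂ)) l s)) (x : ℂ) :=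
      (hexp.differentiableAt ((isOpen_half β).mem_nhds hxre)).continuousAt
    exact (hc1.eventuallyEq_nhds_iff_eventuallyEq_nhdsNE hc2).1 h3
  have hsum := landau_local ha hl hconv hxβ hgx hge (y := ρ / 2) (by positivity) (by linarith)
  have hmem : x - ρ / 2 ∈ S := by
    refine ⟨?_, conv_of_summable ha hl hsum⟩
    have := min_le_right r β
    rw [hx]
    linarith
  have h6 : β ≤ x - ρ / 2 := csInf_le hbd hmem
  rw [hx] at h6
  linarith

end landau

section euler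
variable {P : Type*}

/-- the frequencies `k log q_v`, `k ≥ 1` -/
noncomputable def lam (q : P → ℕ) (x : P × ℕ) : ℝ := ((x.2 + 1 : ℕ) : ℝ) * Real.log (q x.1)

/-- the coefficients `a_v(k) / k`, `k ≥ 1` -/
noncomputable def cof (a : P → ℕ → ℂ) (x : P × ℕ) : ℂ := a x.1 (x.2 + 1) / ((x.2 + 1 : ℕ) : ℂ)

/-- `exp (∑_v ∑_{k ≥ 1} a_v(k) / (k q_v ^ (k s)))` -/
noncomputable def eul (q : P → ℕ) (a : P → ℕ → ℂ) (s : ℂ) : ℂ :=
  cexp (∑' x : P × ℕ, a x.1 (x.2 + 1) / (((x.2 + 1 : ℕ) : ℂ) * (q x.1 : ℂ) ^ (((x.2 + 1 : ℕ) : ℂ) * s)))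

lemma lam_nonneg {q : P → ℕ} (x : P × ℕ) : 0 ≤ lam q x :=
  mul_nonneg (Nat.cast_nonneg _) (Real.log_natCast_nonneg _)

lemma eul_eq {q : P → ℕ} (hq : ∀ v, 2 ≤ q v) (a : P → ℕ → ℂ) (s : ℂ) :
    eul q a s = cexp (gds (cof a) (lam q) s) := by
  unfold eul gds cof lam
  congr 1
  refine tsum_congr fun x => ?_
  have hq0 : (q x.1 : ℂ) ≠ 0 := by
    have := hq x.1
    exact_mod_cast (by omega : q x.1 ≠ 0)
  have h1 : (q x.1 : ℂ) ^ (((x.2 + 1 : ℕ) : ℂ) * s)
      = cexp ((((x.2 + 1 : ℕ) : ℝ) * Real.log (q x.1) : ℝ) * s) := by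
    rw [Complex.cpow_def_of_ne_zero hq0]
    congr 1
    rw [← Complex.natCast_log]
    push_cast
    ring
  rw [h1, div_mul_eq_div_div, neg_mul, Complex.exp_neg, div_eq_mul_inv]

lemma conv_cof {q : P → ℕ} (hq : ∀ v, 2 ≤ q v)
    (hs : ∀ σ : ℝ, 1 < σ → Summable fun v => (q v : ℝ) ^ (-σ)) {a : P → ℕ → ℂ} {B : ℝ}
    (hB : ∀ v k, ‖a v (k + 1)‖ ≤ B) : Conv (cof a) (lam q) 1 := by
  intro τ hτ
  have hτ0 : 0 < τ := by linarith
  have hB0 : ∀ v : P, 0 ≤ B := fun v => (norm_nonneg _).trans (hB v 0)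
  have hterm : ∀ x : P × ℕ, Real.exp (-(lam q x) * τ) = ((q x.1 : ℝ) ^ (-τ)) ^ (x.2 + 1) := by
    intro x
    have hq0 : (0 : ℝ) < q x.1 := by
      have := hq x.1
      exact_mod_cast (by omega : 0 < q x.1)
    rw [Real.rpow_def_of_pos hq0, ← Real.exp_nat_mul, lam]
    congr 1
    push_cast
    ring
  have hhalf : ∀ v : P, (q v : ℝ) ^ (-τ) ≤ 1 / 2 := by
    intro v
    have h2 : (2 : ℝ) ≤ q v := by exact_mod_cast hq v
    calc (q v : ℝ) ^ (-τ) ≤ (2 : ℝ) ^ (-τ) :=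
          Real.rpow_le_rpow_of_nonpos (by norm_num) h2 (by linarith)
      _ ≤ (2 : ℝ) ^ (-1 : ℝ) := Real.rpow_le_rpow_of_exponent_le (by norm_num) (by linarith)
      _ = 1 / 2 := by rw [Real.rpow_neg_one]; norm_num
  have hpos : ∀ v : P, 0 ≤ (q v : ℝ) ^ (-τ) := fun v => Real.rpow_nonneg (Nat.cast_nonneg _) _
  have key : Summable fun x : P × ℕ => |B| * (((q x.1 : ℝ) ^ (-τ)) ^ (x.2 + 1)) := by
    refine Summable.mul_left _ ?_
    rw [summable_prod_of_nonneg (fun x => pow_nonneg (hpos x.1) _)]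
    constructor
    · intro v
      simp only
      simp_rw [pow_succ]
      exact (summable_geometric_of_lt_one (hpos v) (by linarith [hhalf v])).mul_right _
    · refine Summable.of_nonneg_of_le (fun v => tsum_nonneg fun k => pow_nonneg (hpos v) _)
        (fun v => ?_) ((hs τ hτ).mul_left 2)
      simp only
      simp_rw [pow_succ]
      rw [tsum_mul_right, tsum_geometric_of_lt_one (hpos v) (by linarith [hhalf v])]
      refine mul_le_mul_of_nonneg_right ?_ (hpos v)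
      rw [inv_le_comm₀ (by linarith [hhalf v]) (by norm_num)]
      linarith [hhalf v]
  refine Summable.of_nonneg_of_le (fun x => by positivity) (fun x => ?_) key
  rw [hterm]
  refine mul_le_mul_of_nonneg_right ?_ (pow_nonneg (hpos _) _)
  unfold cof
  rw [norm_div, Complex.norm_natCast]
  have h3 : (1 : ℝ) ≤ ((x.2 + 1 : ℕ) : ℝ) := by exact_mod_cast Nat.succ_pos _
  calc ‖a x.1 (x.2 + 1)‖ / ((x.2 + 1 : ℕ) : ℝ) ≤ ‖a x.1 (x.2 + 1)‖ / 1 :=
        div_le_div_of_nonneg_left (norm_nonneg _) one_pos h3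
    _ = ‖a x.1 (x.2 + 1)‖ := div_one _
    _ ≤ B := hB _ _
    _ ≤ |B| := le_abs_self _

/-- products of Euler products -/
lemma eul_mul {q : P → ℕ} (hq : ∀ v, 2 ≤ q v)
    (hs : ∀ σ : ℝ, 1 < σ → Summable fun v => (q v : ℝ) ^ (-σ)) {a b : P → ℕ → ℂ} {A B : ℝ}
    (hA : ∀ v k, ‖a v (k + 1)‖ ≤ A) (hB : ∀ v k, ‖b v (k + 1)‖ ≤ B) {s : ℂ} (h : 1 < s.re) :
    eul q (fun v k => a v k + b v k) s = eul q a s * eul q b s := by
  rw [eul_eq hq, eul_eq hq, eul_eq hq, ← Complex.exp_add]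
  congr 1
  unfold gds
  rw [← ((conv_cof hq hs hA).summable h).tsum_add ((conv_cof hq hs hB).summable h)]
  refine tsum_congr fun x => ?_
  unfold cof
  ring

end euler

end Pool.Agent.E8helper33.AH
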