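import Mathlib

/-!
# Landau's lemma for exponentials of general Dirichlet series with nonnegative coefficients
-/

set_option autoImplicit false

open Complex Filter Topology Set
open scoped ComplexOrder Nat

namespace Pool.Agent.E8helper33.AH

variable {ι : Type*}

/-- the general Dirichlet series `∑ c i * exp (-(l i) s)` -/
noncomputable def gds (c : ι → ℂ) (l : ι → ℝ) (s : ℂ) : ℂ := ∑' i, c i * cexp (-(l i : ℂ) * s)

/-- absolute convergence at all points to the right of `σ` -/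
def Conv (c : ι → ℂ) (l : ι → ℝ) (σ : ℝ) : Prop :=
  ∀ τ : ℝ, σ < τ → Summable fun i => ‖c i‖ * Real.exp (-(l i) * τ)

lemma norm_term (c : ι → ℂ) (l : ι → ℝ) (s : ℂ) (i : ι) :
    ‖c i * cexp (-(l i : ℂ) * s)‖ = ‖c i‖ * Real.exp (-(l i) * s.re) := by
  rw [norm_mul, Complex.norm_exp]
  congr 2
  simp

lemma Conv.mono {c : ι → ℂ} {l : ι → ℝ} {σ τ : ℝ} (h : Conv c l σ) (hst : σ ≤ τ) : Conv c l τ :=
  fun u hu => h u (lt_of_le_of_lt hst hu)

lemma Conv.pow {c : ι → ℂ} {l : ι → ℝ} {σ : ℝ} (hl : ∀ i, 0 ≤ l i) (h : Conv c l σ) (m : ℕ) :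
    Conv (fun i => (-(l i : ℂ)) ^ m * c i) l σ := by
  intro τ hτ
  set δ := (τ - σ) / 2 with hδ
  have hδ0 : 0 < δ := by rw [hδ]; linarith
  have h1 := h (σ + δ) (by linarith)
  refine Summable.of_nonneg_of_le (fun i => by positivity) (fun i => ?_)
    (h1.mul_left ((m ! : ℝ) / δ ^ m))
  have h2 : (l i * δ) ^ m / (m ! : ℝ) ≤ Real.exp (l i * δ) :=
    Real.pow_div_factorial_le_exp _ (mul_nonneg (hl i) hδ0.le) m
  have h3 : l i ^ m ≤ (m ! : ℝ) / δ ^ m * Real.exp (l i * δ) := by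
    have hm : (0 : ℝ) < (m ! : ℝ) := by positivity
    rw [div_le_iff₀ hm, mul_pow] at h2
    rw [div_mul_eq_mul_div, le_div_iff₀ (by positivity)]
    linarith
  have h4 : ‖(-(l i : ℂ)) ^ m * c i‖ = l i ^ m * ‖c i‖ := by
    rw [norm_mul, norm_pow, norm_neg, Complex.norm_real, Real.norm_of_nonneg (hl i)]
  rw [h4]
  have h5 : Real.exp (-(l i) * τ) = Real.exp (-(l i) * (σ + δ)) * Real.exp (-(l i * δ)) := by
    rw [← Real.exp_add]
    congr 1
    rw [hδ]
    ring
  rw [h5]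
  have h6 : l i ^ m * Real.exp (-(l i * δ)) ≤ (m ! : ℝ) / δ ^ m := by
    have h7 := mul_le_mul_of_nonneg_right h3 (Real.exp_pos (-(l i * δ))).le
    rw [mul_assoc, ← Real.exp_add, add_neg_cancel, Real.exp_zero, mul_one] at h7
    exact h7
  calc l i ^ m * ‖c i‖ * (Real.exp (-(l i) * (σ + δ)) * Real.exp (-(l i * δ)))
      = (l i ^ m * Real.exp (-(l i * δ))) * (‖c i‖ * Real.exp (-(l i) * (σ + δ))) := by ring
    _ ≤ (m ! : ℝ) / δ ^ m * (‖c i‖ * Real.exp (-(l i) * (σ + δ))) :=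
        mul_le_mul_of_nonneg_right h6 (by positivity)

lemma isOpen_half (σ : ℝ) : IsOpen {s : ℂ | σ < s.re} :=
  continuous_re.isOpen_preimage _ isOpen_Ioi

lemma Conv.summable {c : ι → ℂ} {l : ι → ℝ} {σ : ℝ} (h : Conv c l σ) {s : ℂ} (hs : σ < s.re) :
    Summable fun i => c i * cexp (-(l i : ℂ) * s) := by
  refine Summable.of_norm ?_
  simp_rw [norm_term]
  exact h _ hs

/-- the derivative -/
lemma Conv.hasDerivAt {c : ι → ℂ} {l : ι → ℝ} {σ : ℝ} (hl : ∀ i, 0 ≤ l i) (h : Conv c l σ)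
    {s : ℂ} (hs : σ < s.re) :
    HasDerivAt (gds c l) (gds (fun i => (-(l i : ℂ)) * c i) l s) s := by
  obtain ⟨τ, h1, h2⟩ := exists_between hs
  have hU : IsOpen {z : ℂ | τ < z.re} := isOpen_half τ
  have hd : ∀ i, DifferentiableOn ℂ (fun z : ℂ => c i * cexp (-(l i : ℂ) * z)) {z : ℂ | τ < z.re} := by
    intro i
    fun_prop
  have hle : ∀ (i : ι) (w : ℂ), w ∈ {z : ℂ | τ < z.re} →
      ‖c i * cexp (-(l i : ℂ) * w)‖ ≤ ‖c i‖ * Real.exp (-(l i) * τ) := by
    intro i w hw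
    rw [norm_term]
    refine mul_le_mul_of_nonneg_left (Real.exp_le_exp.2 ?_) (norm_nonneg _)
    have : τ < w.re := hw
    nlinarith [hl i]
  have hdiff : DifferentiableOn ℂ (gds c l) {z : ℂ | τ < z.re} :=
    differentiableOn_tsum_of_summable_norm (h τ h1) hd hU hle
  have hsum := hasSum_deriv_of_summable_norm (h τ h1) hd hU hle (show s ∈ {z : ℂ | τ < z.re} from h2)
  have h3 : deriv (gds c l) s = gds (fun i => (-(l i : ℂ)) * c i) l s := by
    have h4 : deriv (gds c l) s = ∑' i, deriv (fun z : ℂ => c i * cexp (-(l i : ℂ) * z)) s :=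
      hsum.tsum_eq.symm
    rw [h4]
    unfold gds
    refine tsum_congr fun i => ?_
    have h5 : HasDerivAt (fun z : ℂ => c i * cexp (-(l i : ℂ) * z))
        (c i * (cexp (-(l i : ℂ) * s) * (-(l i : ℂ) * 1))) s :=
      (((hasDerivAt_id s).const_mul (-(l i : ℂ))).cexp).const_mul (c i)
    rw [h5.deriv]
    ring
  rw [← h3]
  exact ((hdiff s h2).differentiableAt (hU.mem_nhds h2)).hasDerivAt

lemma Conv.differentiableOn {c : ι → ℂ} {l : ι → ℝ} {σ : ℝ} (hl : ∀ i, 0 ≤ l i) (h : Conv c l σ) :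
    DifferentiableOn ℂ (gds c l) {s : ℂ | σ < s.re} :=
  fun _ hs => (h.hasDerivAt hl hs).differentiableAt.differentiableWithinAt

lemma Conv.iterD {c : ι → ℂ} {l : ι → ℝ} {σ : ℝ} (hl : ∀ i, 0 ≤ l i) (h : Conv c l σ)
    (m : ℕ) : ∀ {s : ℂ}, σ < s.re →
      iteratedDeriv m (gds c l) s = gds (fun i => (-(l i : ℂ)) ^ m * c i) l s := by
  induction m with
  | zero => intro s _; simp
  | succ m ih =>
    intro s hs
    rw [iteratedDeriv_succ]
    have h1 : iteratedDeriv m (gds c l) =ᶠ[𝓝 s] gds (fun i => (-(l i : ℂ)) ^ m * c i) l := by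
      filter_upwards [(isOpen_half σ).mem_nhds hs] with z hz using ih hz
    rw [h1.deriv_eq, ((h.pow hl m).hasDerivAt hl hs).deriv]
    unfold gds
    refine tsum_congr fun i => ?_
    ring

/-- value of a series with nonnegative coefficients at a real point -/
lemma gds_real (a : ι → ℝ) (l : ι → ℝ) (σ : ℝ) :
    gds (fun i => (a i : ℂ)) l (σ : ℂ) = ((∑' i, a i * Real.exp (-(l i) * σ) : ℝ) : ℂ) := by
  unfold gds
  rw [Complex.ofReal_tsum]
  refine tsum_congr fun i => ?_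
  push_cast
  ring_nf

section pos
variable {a l : ι → ℝ} {σ : ℝ}

/-- the absolute values of the derivatives -/
noncomputable def mom (a l : ι → ℝ) (m : ℕ) (σ : ℝ) : ℝ := ∑' i, l i ^ m * a i * Real.exp (-(l i) * σ)

lemma mom_nonneg (ha : ∀ i, 0 ≤ a i) (hl : ∀ i, 0 ≤ l i) (m : ℕ) (x : ℝ) : 0 ≤ mom a l m x :=
  tsum_nonneg fun i => mul_nonneg (mul_nonneg (pow_nonneg (hl i) m) (ha i)) (Real.exp_pos _).le

lemma iteratedDeriv_real (hl : ∀ i, 0 ≤ l i)
    (h : Conv (fun i => (a i : ℂ)) l σ) (m : ℕ) {x : ℝ} (hx : σ < x) :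
    (-1) ^ m * iteratedDeriv m (gds (fun i => (a i : ℂ)) l) (x : ℂ) = (mom a l m x : ℂ) := by
  rw [h.iterD hl m (by rwa [Complex.ofReal_re])]
  have h1 : gds (fun i => (-(l i : ℂ)) ^ m * (a i : ℂ)) l (x : ℂ)
      = (-1) ^ m * gds (fun i => ((l i ^ m * a i : ℝ) : ℂ)) l (x : ℂ) := by
    unfold gds
    rw [← tsum_mul_left]
    refine tsum_congr fun i => ?_
    push_cast
    rw [neg_pow]
    ring
  rw [h1, ← mul_assoc, ← mul_pow, gds_real, neg_one_mul, neg_neg, one_pow, one_mul]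
  rfl

/-- the derivatives of the exponential have alternating signs and dominate those of the series -/
lemma exp_alt (ha : ∀ i, 0 ≤ a i) (hl : ∀ i, 0 ≤ l i) (h : Conv (fun i => (a i : ℂ)) l σ) (m : ℕ) :
    ∀ {x : ℝ}, σ < x → ∃ b : ℝ, 0 ≤ b ∧ (m ≠ 0 → mom a l m x ≤ b) ∧ (m = 0 → 1 ≤ b) ∧
      (-1) ^ m * iteratedDeriv m (fun s => cexp (gds (fun i => (a i : ℂ)) l s)) (x : ℂ) = (b : ℂ) := by
  set f : ℂ → ℂ := gds (fun i => (a i : ℂ)) l with hf
  induction m using Nat.strong_induction_on with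
  | _ m ih =>
  intro x hx
  have hxre : σ < ((x : ℝ) : ℂ).re := by rwa [Complex.ofReal_re]
  rcases m with _ | m
  · refine ⟨Real.exp (mom a l 0 x), (Real.exp_pos _).le, fun h0 => absurd rfl h0, fun _ => ?_, ?_⟩
    · exact Real.one_le_exp (mom_nonneg ha hl 0 x)
    · have h1 := iteratedDeriv_real hl h 0 hx
      simp only [pow_zero, one_mul, iteratedDeriv_zero] at h1 ⊢
      rw [hf, h1, Complex.ofReal_exp]
  · have hopen : {s : ℂ | σ < s.re} ∈ 𝓝 (x : ℂ) := (isOpen_half σ).mem_nhds hxre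
    have hfd : DifferentiableOn ℂ f {s : ℂ | σ < s.re} := h.differentiableOn hl
    have hfa : AnalyticAt ℂ f (x : ℂ) := hfd.analyticAt hopen
    have hfa' : AnalyticAt ℂ (deriv f) (x : ℂ) := hfa.deriv
    have hea : AnalyticAt ℂ (fun s => cexp (f s)) (x : ℂ) := hfa.cexp'
    have h1 : deriv (fun s => cexp (f s)) =ᶠ[𝓝 (x : ℂ)] (deriv f * fun s => cexp (f s)) := by
      filter_upwards [hopen] with z hz
      have hz' : DifferentiableAt ℂ f z := (hfd z hz).differentiableAt ((isOpen_half σ).mem_nhds hz)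
      have := hz'.hasDerivAt.cexp.deriv
      rw [this, Pi.mul_apply, mul_comm]
    have h2 : iteratedDeriv (m + 1) (fun s => cexp (f s)) (x : ℂ)
        = ∑ i ∈ Finset.range (m + 1), (m.choose i : ℂ) * iteratedDeriv i (deriv f) (x : ℂ)
          * iteratedDeriv (m - i) (fun s => cexp (f s)) (x : ℂ) := by
      rw [iteratedDeriv_succ', h1.iteratedDeriv_eq m,
        iteratedDeriv_mul (hfa'.contDiffAt) (hea.contDiffAt)]
    choose! b hb0 hb1 hb2 hb3 using fun (k : ℕ) (hk : k < m + 1) => ih k hk hx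
    have h3 : (-1 : ℂ) ^ (m + 1) * iteratedDeriv (m + 1) (fun s => cexp (f s)) (x : ℂ)
        = ((∑ i ∈ Finset.range (m + 1), (m.choose i : ℝ) * mom a l (i + 1) x * b (m - i) : ℝ) : ℂ) := by
      rw [h2, Finset.mul_sum]
      push_cast
      refine Finset.sum_congr rfl fun i hi => ?_
      have him : i ≤ m := Nat.lt_succ_iff.1 (Finset.mem_range.1 hi)
      have h4 := iteratedDeriv_real hl h (i + 1) hx
      rw [iteratedDeriv_succ'] at h4
      have h5 := hb3 (m - i) (by omega)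
      rw [← h4, ← h5]
      have h6 : (-1 : ℂ) ^ (m + 1) = (-1) ^ (i + 1) * (-1) ^ (m - i) := by
        rw [← pow_add]
        congr 1
        omega
      rw [h6]
      ring
    refine ⟨_, ?_, fun _ => ?_, fun h0 => absurd h0 (Nat.succ_ne_zero m), h3⟩
    · refine Finset.sum_nonneg fun i hi => ?_
      have := hb0 (m - i) (by omega)
      have := mom_nonneg ha hl (i + 1) x
      positivity
    · have h7 : (m.choose m : ℝ) * mom a l (m + 1) x * b (m - m)
          ≤ ∑ i ∈ Finset.range (m + 1), (m.choose i : ℝ) * mom a l (i + 1) x * b (m - i) := by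
        refine Finset.single_le_sum (f := fun i => (m.choose i : ℝ) * mom a l (i + 1) x * b (m - i))
          (fun i hi => ?_) (Finset.mem_range.2 (Nat.lt_succ_self m))
        have := hb0 (m - i) (by omega)
        have := mom_nonneg ha hl (i + 1) x
        positivity
      refine le_trans ?_ h7
      rw [Nat.choose_self, Nat.sub_self]
      have h8 := hb2 0 (by omega) rfl
      have h9 := mom_nonneg ha hl (m + 1) x
      push_cast
      nlinarith

/-- **Landau's lemma, local form.** -/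
theorem landau_local (ha : ∀ i, 0 ≤ a i) (hl : ∀ i, 0 ≤ l i) (h : Conv (fun i => (a i : ℂ)) l σ)
    {F : ℂ → ℂ} {x R : ℝ} (hx : σ < x)
    (hF : DifferentiableOn ℂ F (Metric.ball (x : ℂ) R))
    (hFe : F =ᶠ[𝓝 (x : ℂ)] fun s => cexp (gds (fun i => (a i : ℂ)) l s)) {y : ℝ} (hy0 : 0 ≤ y)
    (hy : y < R) : Summable fun i => a i * Real.exp (-(l i) * (x - y)) := by
  have hz : ((x - y : ℝ) : ℂ) ∈ Metric.ball (x : ℂ) R := by
    rw [Metric.mem_ball, dist_eq_norm]
    have : ((x - y : ℝ) : ℂ) - (x : ℂ) = ((-y : ℝ) : ℂ) := by push_cast; ring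
    rw [this, Complex.norm_real, norm_neg, Real.norm_of_nonneg hy0]
    exact hy
  have h1 := (hasSum_taylorSeries_on_ball hF hz).summable
  choose b hb0 hb1 hb2 hb3 using fun m : ℕ => exp_alt ha hl h m hx
  have h2 : ∀ m : ℕ, (m ! : ℂ)⁻¹ • (((x - y : ℝ) : ℂ) - (x : ℂ)) ^ m • iteratedDeriv m F (x : ℂ)
      = (((m ! : ℝ)⁻¹ * y ^ m * b m : ℝ) : ℂ) := by
    intro m
    rw [hFe.iteratedDeriv_eq m]
    have h3 : ((x - y : ℝ) : ℂ) - (x : ℂ) = (-1) * (y : ℂ) := by push_cast; ring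
    rw [h3, mul_pow, smul_eq_mul, smul_eq_mul]
    push_cast
    rw [← hb3 m]
    ring
  simp_rw [h2] at h1
  have h4 : Summable fun m : ℕ => (m ! : ℝ)⁻¹ * y ^ m * b m := by exact_mod_cast h1
  have h5 : Summable fun m : ℕ => (m ! : ℝ)⁻¹ * y ^ m * mom a l m x := by
    rw [← summable_nat_add_iff 1] at h4 ⊢
    refine Summable.of_nonneg_of_le (fun m => ?_) (fun m => ?_) h4
    · have := mom_nonneg ha hl (m + 1) x
      positivity
    · exact mul_le_mul_of_nonneg_left (hb1 (m + 1) (Nat.succ_ne_zero m)) (by positivity)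
  -- the double series
  have hterm : ∀ m : ℕ, Summable fun i => l i ^ m * a i * Real.exp (-(l i) * x) := by
    intro m
    have h6 := h.pow hl m x hx
    refine h6.congr fun i => ?_
    rw [norm_mul, norm_pow, norm_neg, Complex.norm_real, Complex.norm_real,
      Real.norm_of_nonneg (hl i), Real.norm_of_nonneg (ha i)]
  have h7 : Summable fun p : ℕ × ι =>
      (p.1 ! : ℝ)⁻¹ * y ^ p.1 * (l p.2 ^ p.1 * a p.2 * Real.exp (-(l p.2) * x)) := by
    rw [summable_prod_of_nonneg]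
    · refine ⟨fun m => (hterm m).mul_left ((m ! : ℝ)⁻¹ * y ^ m), ?_⟩
      refine h5.congr fun m => ?_
      rw [mom, ← tsum_mul_left]
    · intro p
      have := hl p.2
      have := ha p.2
      simp only [Pi.zero_apply]
      positivity
  have h8 : Summable fun i : ι => ∑' m : ℕ,
      (m ! : ℝ)⁻¹ * y ^ m * (l i ^ m * a i * Real.exp (-(l i) * x)) := h7.prod_symm.prod
  refine h8.congr fun i => ?_
  have h9 : ∀ m : ℕ, (m ! : ℝ)⁻¹ * y ^ m * (l i ^ m * a i * Real.exp (-(l i) * x))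
      = (l i * y) ^ m / (m ! : ℝ) * (a i * Real.exp (-(l i) * x)) := by
    intro m
    rw [mul_pow]
    field_simp
  rw [tsum_congr h9, tsum_mul_right]
  have h10 : ∑' m : ℕ, (l i * y) ^ m / (m ! : ℝ) = Real.exp (l i * y) := by
    rw [Real.exp_eq_exp_ℝ, NormedSpace.exp_eq_tsum_div]
  rw [h10]
  have h11 : Real.exp (-(l i) * (x - y)) = Real.exp (l i * y) * Real.exp (-(l i) * x) := by
    rw [← Real.exp_add]
    congr 1
    ring
  rw [h11]
  ring

end pos

end Pool.Agent.E8helper33.AH
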