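import Pool.Agent.E8helper33.AH.Defs

/-!
# The main theorem
-/

set_option autoImplicit false
set_option linter.unusedSectionVars false

namespace Pool.Agent.E8helper33.AH

open NumberField IsDedekindDomain Finset Filter Topology
open scoped ComplexConjugate

section mero

lemma order_ne_top {F : ℂ → ℂ} (hF : MeromorphicOn F Half) (h0 : ∀ s : ℂ, 1 < s.re → F s ≠ 0)
    {s : ℂ} (hs : s ∈ Half) : meromorphicOrderAt F s ≠ ⊤ := by
  have h2 : (2 : ℂ) ∈ Half := by show (0 : ℝ) < (2 : ℂ).re; norm_num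
  have h1 : meromorphicOrderAt F 2 ≠ ⊤ := by
    intro h
    rw [meromorphicOrderAt_eq_top_iff] at h
    have h3 : {s : ℂ | (1 : ℝ) < s.re} ∈ 𝓝 (2 : ℂ) := (isOpen_half 1).mem_nhds (by
      show (1 : ℝ) < (2 : ℂ).re; norm_num)
    have h4 := h.and (nhdsWithin_le_nhds h3)
    obtain ⟨z, hz1, hz2⟩ := h4.exists
    exact h0 z hz2 hz1
  exact hF.meromorphicOrderAt_ne_top_of_isPreconnected (half_preconnected 0) h2 hs h1

lemma exists_order {F : ℂ → ℂ} (hF : MeromorphicOn F Half) (h0 : ∀ s : ℂ, 1 < s.re → F s ≠ 0)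
    {s : ℂ} (hs : s ∈ Half) : ∃ m : ℤ, meromorphicOrderAt F s = m := by
  obtain ⟨m, hm⟩ := WithTop.ne_top_iff_exists.1 (order_ne_top hF h0 hs)
  exact ⟨m, hm.symm⟩

lemma conj_eul {P : Type*} (q : P → ℕ) (a : P → ℕ → ℂ) (s : ℂ) :
    conj (eul q a (conj s)) = eul q (fun v k => conj (a v k)) s := by
  unfold eul
  rw [← Complex.exp_conj, Complex.conj_tsum]
  congr 1
  refine tsum_congr fun x => ?_
  rw [map_div₀, map_mul, Complex.conj_natCast]
  congr 2
  have h1 : Complex.arg (q x.1 : ℂ) ≠ Real.pi := by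
    rw [Complex.natCast_arg]; exact Real.pi_pos.ne
  have h2 := Complex.cpow_conj (q x.1 : ℂ) (((x.2 + 1 : ℕ) : ℂ) * conj s) h1
  rw [Complex.conj_natCast] at h2
  rw [← h2, map_mul, Complex.conj_natCast, Complex.conj_conj]

end mero

variable {K E : Type} [Field K] [NumberField K] [Field E] [NumberField E] [Algebra K E]
variable {n : ℕ} {S : Set (HeightOneSpectrum (𝓞 K))}

lemma two_le_nrm (v : Pl S) : 2 ≤ nrm v := by
  have h1 : nrm v ≠ 0 := by
    unfold nrm
    rw [Ne, Ideal.absNorm_eq_zero_iff]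
    exact v.1.ne_bot
  have h2 : nrm v ≠ 1 := by
    unfold nrm
    rw [Ne, Ideal.absNorm_eq_one_iff]
    exact v.1.isPrime.ne_top
  omega

lemma summable_nrm (σ : ℝ) (hσ : 1 < σ) : Summable fun v : Pl S => (nrm v : ℝ) ^ (-σ) :=
  (Pool.Agent.H921R2.TatePole.nm_summable (K := K) hσ).comp_injective Subtype.val_injective

lemma Continues.eul_eq' {a : Pl S → ℕ → ℂ} {F : ℂ → ℂ} (h : Continues a F) {s : ℂ} (hs : 1 < s.re) :
    F s = eul nrm a s := h.eq s hs

lemma Continues.ne_zero {a : Pl S → ℕ → ℂ} {F : ℂ → ℂ} (h : Continues a F) {s : ℂ} (hs : 1 < s.re) :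
    F s ≠ 0 := by
  rw [h.eq s hs]
  exact Complex.exp_ne_zero _

lemma Continues.cc {a : Pl S → ℕ → ℂ} {F : ℂ → ℂ} (h : Continues a F) :
    Continues (fun v k => conj (a v k)) (cc F) where
  mero := by
    intro z hz
    have h1 : conj z ∈ Half := by
      show 0 < (conj z).re
      rw [Complex.conj_re]; exact hz
    have h2 := meromorphicAt_cc (h.mero (conj z) h1)
    rwa [Complex.conj_conj] at h2
  eq := by
    intro s hs
    have h1 : 1 < (conj s).re := by rw [Complex.conj_re]; exact hs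
    unfold AH.cc
    rw [h.eul_eq' h1]
    exact conj_eul _ _ _

section setup

variable {frob : Pl S → (E ≃ₐ[K] E)} {ρ : Representation ℂ (E ≃ₐ[K] E) (Fin n → ℂ)}
  {η : (E ≃ₐ[K] E) →* ℂˣ} {l : ℕ} {α : Pl S → Fin n → ℂ} {D D' R R' : ℂ → ℂ}

lemma eta_pow (hl : l = 2 ∨ l = 3) (hη : ∀ g, η g ^ l = 1) {g : E ≃ₐ[K] E} (hg : η g ≠ 1) {k : ℕ}
    (hk : ¬ l ∣ k) : η (g ^ k) ≠ 1 := by
  intro h
  rw [map_pow] at h
  have h1 : orderOf (η g) ∣ l := orderOf_dvd_of_pow_eq_one (hη g)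
  have hp : l.Prime := by rcases hl with rfl | rfl <;> norm_num
  rcases (Nat.dvd_prime hp).1 h1 with h2 | h2
  · exact hg (orderOf_eq_one_iff.1 h2)
  · exact hk (h2 ▸ orderOf_dvd_of_pow_eq_one h)

lemma char_one_off [ρ.IsIrreducible] (hl : l = 2 ∨ l = 3) (hn : ¬ l ∣ n)
    (hsc : ∀ g, η g ≠ 1 → ∃ μ : ℂ, ρ g ^ expo l = μ • 1) {g : E ≃ₐ[K] E} (hg : η g ≠ 1) :
    ‖ρ.character g‖ = 1 := by
  have hn0 : 0 < n := by
    rcases Nat.eq_zero_or_pos n with h0 | h0
    · exact absurd (h0 ▸ dvd_zero l) hn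
    · exact h0
  refine norm_one_off ρ hn0 η.ker (fun x hx => ?_) hg
  obtain ⟨μ, hμ⟩ := hsc x hx
  exact one_le_char ρ hl hn hμ

/-- comparison at all places -/
lemma compare [ρ.IsIrreducible] (hl : l = 2 ∨ l = 3) (hη : ∀ g, η g ^ l = 1) (hn : ¬ l ∣ n)
    (hsc : ∀ g, η g ≠ 1 → ∃ μ : ℂ, ρ g ^ expo l = μ • 1)
    (B : Descent frob ρ η l α R R') (v : Pl S) (k : ℕ) :
    ‖ρ.character (frob v ^ k)‖ ^ 2 ≤ ‖∑ i, α v i ^ k‖ ^ 2 ∧
      ‖ρ.character (frob v ^ k) - ∑ i, α v i ^ k‖ ≤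
        1 * (‖∑ i, α v i ^ k‖ ^ 2 - ‖ρ.character (frob v ^ k)‖ ^ 2) := by
  by_cases h : η (frob v) = 1
  · have h1 : ∑ i, α v i ^ k = ρ.character (frob v ^ k) := by
      rw [char_pow, ← sum_eig_pow]
      unfold eig
      rw [← B.split v h, Multiset.map_map]
      rfl
    rw [h1]
    refine ⟨le_rfl, ?_⟩
    rw [sub_self, norm_zero, sub_self, mul_zero]
  · obtain ⟨μ, hμ⟩ := hsc _ h
    exact local_gap ρ hl hn hμ (fun j hj => char_one_off hl hn hsc (eta_pow hl hη h hj))
      (B.inert v h) (B.det v) k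

/-- equality where `η` is trivial -/
lemma equal_of (hl : l = 2 ∨ l = 3) (hη : ∀ g, η g ^ l = 1)
    (B : Descent frob ρ η l α R R') (v : Pl S) (k : ℕ) (h1 : η (frob v ^ k) = 1) :
    ∑ i, α v i ^ k = ρ.character (frob v ^ k) := by
  by_cases h : η (frob v) = 1
  · rw [char_pow, ← sum_eig_pow]
    unfold eig
    rw [← B.split v h, Multiset.map_map]
    rfl
  · have hk : l ∣ k := by
      by_contra hk
      exact eta_pow hl hη h hk h1
    obtain ⟨j, rfl⟩ := hk
    rw [char_pow, pow_mul, ← sum_eig_pow]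
    unfold eig
    rw [← B.inert v h, Multiset.map_map]
    change _ = ∑ i, (α v i ^ l) ^ j
    refine Finset.sum_congr rfl fun i _ => ?_
    rw [pow_mul]

lemma char_bound (g : E ≃ₐ[K] E) : ‖ρ.character g‖ ≤ n := by
  have h := (Pool.Agent.Y788.rep_heilbronn ρ).norm_le g
  rw [Representation.char_one, Module.finrank_fin_fun, Complex.natCast_re] at h
  exact h

lemma alpha_norm (hl : l = 2 ∨ l = 3)
    (hfin : ∀ g : E ≃ₐ[K] E, ρ g ^ Nat.card (E ≃ₐ[K] E) = (1 : ℂ) • 1)
    (B : Descent frob ρ η l α R R') (v : Pl S) (i : Fin n) : ‖α v i‖ = 1 := by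
  have hl0 : l ≠ 0 := by rcases hl with rfl | rfl <;> norm_num
  by_cases h : η (frob v) = 1
  · have h1 : α v i ∈ eig (ρ (frob v)) := by
      unfold eig
      rw [← B.split v h]
      exact Multiset.mem_map_of_mem _ (mem_univ_val i)
    have h2 := eig_pow _ h1 (hfin (frob v))
    exact Complex.norm_eq_one_of_pow_eq_one h2 Nat.card_pos.ne'
  · have h1 : α v i ^ l ∈ eig (ρ (frob v) ^ l) := by
      unfold eig
      rw [← B.inert v h]
      exact Multiset.mem_map_of_mem (fun i => α v i ^ l) (mem_univ_val i)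
    have h2 := eig_pow _ h1 (m := Nat.card (E ≃ₐ[K] E)) (μ := 1) (by
      rw [← pow_mul, mul_comm, pow_mul, hfin]
      simp)
    have h3 := Complex.norm_eq_one_of_pow_eq_one h2 Nat.card_pos.ne'
    rw [norm_pow] at h3
    exact (pow_eq_one_iff_of_nonneg (norm_nonneg _) hl0).1 h3

lemma rho_fin (g : E ≃ₐ[K] E) : ρ g ^ Nat.card (E ≃ₐ[K] E) = (1 : ℂ) • 1 := by
  rw [← map_pow, pow_card_eq_one', map_one, one_smul]

/-- **The main theorem.** -/
theorem main [ρ.IsIrreducible] (hl : l = 2 ∨ l = 3) (hη : ∀ g, η g ^ l = 1) (hn : ¬ l ∣ n)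
    (hsc : ∀ g, η g ≠ 1 → ∃ μ : ℂ, ρ g ^ expo l = μ • 1)
    (A : ArtinSide frob ρ η D D') (B : Descent frob ρ η l α R R') :
    ∃ β : ℝ, 0 ≤ β ∧ β < 1 ∧
      (0 < β → (((l - 1 : ℕ) : ℤ) : WithTop ℤ) ≤ meromorphicOrderAt D (β : ℂ)) ∧
      Controls frob ρ α β := by
  have hn0 : 0 < n := by
    rcases Nat.eq_zero_or_pos n with h0 | h0
    · exact absurd (h0 ▸ dvd_zero l) hn
    · exact h0
  have hαb : ∀ v k, ‖∑ i, α v i ^ k‖ ≤ (n : ℝ) := by
    intro v k
    refine (norm_sum_le _ _).trans ?_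
    have h1 : ∀ i ∈ (univ : Finset (Fin n)), ‖α v i ^ k‖ ≤ 1 := fun i _ => by
      rw [norm_pow, alpha_norm hl rho_fin B v i, one_pow]
    refine (Finset.sum_le_card_nsmul _ _ _ h1).trans ?_
    simp
  obtain ⟨β, hβ0, hβ1, hβF, hβL⟩ := core (q := nrm) (P := Pl S) two_le_nrm summable_nrm
    (χ := fun v k => ρ.character (frob v ^ k)) (α := fun v k => ∑ i, α v i ^ k) (B := n)
    (fun v k => char_bound _) (fun v k => hαb v _)
    (fun v k => (compare hl hη hn hsc B v (k + 1)).1)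
    B.square.mero (fun s hs => B.square.eq s hs) A.square.mero (fun s hs => A.square.eq s hs)
  -- orders
  have horder : ∀ s ∈ Half, ∃ r d : ℤ, meromorphicOrderAt R s = r ∧ meromorphicOrderAt D s = d ∧
      meromorphicOrderAt (R * D⁻¹) s = ((r - d : ℤ) : WithTop ℤ) := by
    intro s hs
    obtain ⟨r, hr⟩ := exists_order B.square.mero (fun z hz => B.square.ne_zero hz) hs
    obtain ⟨d, hd⟩ := exists_order A.square.mero (fun z hz => A.square.ne_zero hz) hs
    refine ⟨r, d, hr, hd, ?_⟩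
    rw [meromorphicOrderAt_mul (B.square.mero s hs) (A.square.mero s hs).inv, meromorphicOrderAt_inv,
      hr, hd]
    rfl
  have hβlt : β < 1 := by
    rcases lt_or_eq_of_le hβ1 with h | h
    · exact h
    · exfalso
      subst h
      have h1 : (1 : ℂ) ∈ Half := by show (0 : ℝ) < (1 : ℂ).re; norm_num
      obtain ⟨r, d, hr, hd, hrd⟩ := horder 1 h1
      have h2 := hβF one_pos
      rw [Complex.ofReal_one, hrd] at h2
      have h3 := B.simple
      rw [hr] at h3
      have h4 := A.pole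
      rw [hd] at h4
      have h5 : -1 ≤ r := by exact_mod_cast h3
      have h6 : d < 0 := by exact_mod_cast h4
      have h7 : r - d < 0 := by exact_mod_cast h2
      omega
  have hcon : Controls frob ρ α β := by
    intro t m L P T
    have hL : ∀ s : ℂ, β < s.re → 0 ≤ meromorphicOrderAt L s := by
      refine hβL (fun v k => t v k * ρ.character (frob v ^ k)) (fun v k => t v k * ∑ i, α v i ^ k)
        (|m| * n) |m| ?_ ?_ ?_ L P T.artin.mero (fun s hs => T.artin.eq s hs) T.hol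
        (fun s hs => T.standard.eq s hs)
      · intro v k
        rw [norm_mul]
        exact mul_le_mul ((T.bound _ _).trans (le_abs_self m)) (char_bound _) (norm_nonneg _) (abs_nonneg _)
      · intro v k
        rw [norm_mul]
        exact mul_le_mul ((T.bound _ _).trans (le_abs_self m)) (hαb v _) (norm_nonneg _) (abs_nonneg _)
      · intro v k
        rw [← mul_sub, norm_mul]
        have h1 := (compare hl hη hn hsc B v (k + 1)).2
        rw [one_mul] at h1
        exact mul_le_mul ((T.bound _ _).trans (le_abs_self m)) h1 (norm_nonneg _) (abs_nonneg _)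
    intro s hs hneg
    have h1 : s.re ≤ β := by
      by_contra h
      push Not at h
      exact absurd (hL s h) (not_le.2 hneg)
    refine ⟨h1, fun hsym => ?_⟩
    have h2 := hsym s hs (lt_of_le_of_lt h1 hβlt)
    rw [h2] at hneg
    by_contra h
    push Not at h
    refine absurd (hL (1 - (starRingEnd ℂ) s) ?_) (not_le.2 hneg)
    rw [Complex.sub_re, Complex.one_re, Complex.conj_re]
    linarith
  refine ⟨β, hβ0, hβlt, fun hβ => ?_, hcon⟩
  have hβH : (β : ℂ) ∈ Half := by show 0 < (β : ℂ).re; rwa [Complex.ofReal_re]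
  have hβne : (β : ℂ) ≠ 1 := by
    intro h
    have := congrArg Complex.re h
    rw [Complex.ofReal_re, Complex.one_re] at this
    exact hβlt.ne this
  obtain ⟨r, d, hr, hd, hrd⟩ := horder β hβH
  have h2 := hβF hβ
  rw [hrd] at h2
  have h3 := B.square_hol _ hβH hβne
  rw [hr] at h3
  have h5 : 0 ≤ r := by exact_mod_cast h3
  have h7 : r - d < 0 := by exact_mod_cast h2
  rw [hd]
  rcases hl with rfl | rfl
  · have : (((2 - 1 : ℕ) : ℤ)) ≤ d := by push_cast; omega
    exact_mod_cast this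
  · -- the cubic case: parity
    obtain ⟨r', hr'⟩ := exists_order B.twisted.mero (fun z hz => B.twisted.ne_zero hz) hβH
    obtain ⟨d', hd'⟩ := exists_order A.twisted.mero (fun z hz => A.twisted.ne_zero hz) hβH
    have hcβ : conj (β : ℂ) = β := Complex.conj_ofReal β
    have hrc : meromorphicOrderAt (cc R') β = r' := by
      have := order_cc (B.twisted.mero _ hβH) hr'
      rwa [hcβ] at this
    have hdc : meromorphicOrderAt (cc D') β = d' := by
      have := order_cc (A.twisted.mero _ hβH) hd'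
      rwa [hcβ] at this
    have hRc := B.twisted.cc
    have hDc := A.twisted.cc
    have hηn : ∀ v, ‖((η (frob v) : ℂˣ) : ℂ)‖ = 1 := fun v => by
      have h := hη (frob v)
      have h' : ((η (frob v) : ℂˣ) : ℂ) ^ 3 = 1 := by
        rw [← Units.val_pow_eq_pow_val, h, Units.val_one]
      exact Complex.norm_eq_one_of_pow_eq_one h' (by norm_num)
    have bound : ∀ (x : ℂ), ‖x‖ ≤ n → ‖((‖x‖ ^ 2 : ℝ) : ℂ)‖ ≤ (n : ℝ) ^ 2 := by
      intro x hx
      rw [Complex.norm_real, Real.norm_of_nonneg (by positivity)]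
      exact pow_le_pow_left₀ (norm_nonneg _) hx 2
    have bound' : ∀ (v : Pl S) (k : ℕ) (x : ℂ), ‖x‖ ≤ n →
        ‖((η (frob v) : ℂˣ) : ℂ) ^ k * ((‖x‖ ^ 2 : ℝ) : ℂ)‖ ≤ (n : ℝ) ^ 2 := by
      intro v k x hx
      rw [norm_mul, norm_pow, hηn, one_pow, one_mul]
      exact bound x hx
    have key : ∀ s : ℂ, 0 < s.re → 1 < s.re → (R * R' * cc R') s = (D * D' * cc D') s := by
      intro s _ hs
      have e1 : ∀ (x : Pl S → ℕ → ℂ), (∀ v k, ‖x v k‖ ≤ n) →
          eul nrm (fun v k => ((‖x v k‖ ^ 2 : ℝ) : ℂ)) s *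
            eul nrm (fun v k => ((η (frob v) : ℂˣ) : ℂ) ^ k * ((‖x v k‖ ^ 2 : ℝ) : ℂ)) s *
            eul nrm (fun v k => conj (((η (frob v) : ℂˣ) : ℂ) ^ k * ((‖x v k‖ ^ 2 : ℝ) : ℂ))) s =
          eul nrm (fun v k => ((‖x v k‖ ^ 2 : ℝ) : ℂ) +
            ((η (frob v) : ℂˣ) : ℂ) ^ k * ((‖x v k‖ ^ 2 : ℝ) : ℂ) +
            conj (((η (frob v) : ℂˣ) : ℂ) ^ k * ((‖x v k‖ ^ 2 : ℝ) : ℂ))) s := by
        intro x hx
        have b1 : ∀ v k, ‖(fun v k => ((‖x v k‖ ^ 2 : ℝ) : ℂ)) v (k + 1)‖ ≤ (n : ℝ) ^ 2 := fun v k =>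
          bound _ (hx v _)
        have b2 : ∀ v k, ‖(fun v k => ((η (frob v) : ℂˣ) : ℂ) ^ k * ((‖x v k‖ ^ 2 : ℝ) : ℂ)) v (k + 1)‖
            ≤ (n : ℝ) ^ 2 := fun v k => bound' v _ _ (hx v _)
        have b3 : ∀ v k, ‖(fun v k => conj (((η (frob v) : ℂˣ) : ℂ) ^ k * ((‖x v k‖ ^ 2 : ℝ) : ℂ))) v (k + 1)‖
            ≤ (n : ℝ) ^ 2 := fun v k => by
          simp only
          rw [RCLike.norm_conj]
          exact bound' v _ _ (hx v _)
        rw [← eul_mul two_le_nrm summable_nrm b1 b2 hs]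
        rw [← eul_mul two_le_nrm summable_nrm (A := (n : ℝ) ^ 2 + (n : ℝ) ^ 2) (fun v k =>
          (norm_add_le _ _).trans (add_le_add (b1 v k) (b2 v k))) b3 hs]
      have l1 : (R * R' * cc R') s = eul nrm (fun v k => ((‖∑ i, α v i ^ k‖ ^ 2 : ℝ) : ℂ)) s *
            eul nrm (fun v k => ((η (frob v) : ℂˣ) : ℂ) ^ k * ((‖∑ i, α v i ^ k‖ ^ 2 : ℝ) : ℂ)) s *
            eul nrm (fun v k => conj (((η (frob v) : ℂˣ) : ℂ) ^ k * ((‖∑ i, α v i ^ k‖ ^ 2 : ℝ) : ℂ))) s := by
        show R s * R' s * cc R' s = _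
        rw [B.square.eul_eq' hs, B.twisted.eul_eq' hs, hRc.eul_eq' hs]
      have l2 : (D * D' * cc D') s = eul nrm (fun v k => ((‖ρ.character (frob v ^ k)‖ ^ 2 : ℝ) : ℂ)) s *
            eul nrm (fun v k => ((η (frob v) : ℂˣ) : ℂ) ^ k * ((‖ρ.character (frob v ^ k)‖ ^ 2 : ℝ) : ℂ)) s *
            eul nrm (fun v k => conj (((η (frob v) : ℂˣ) : ℂ) ^ k *
              ((‖ρ.character (frob v ^ k)‖ ^ 2 : ℝ) : ℂ))) s := by
        show D s * D' s * cc D' s = _
        rw [A.square.eul_eq' hs, A.twisted.eul_eq' hs, hDc.eul_eq' hs]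
      rw [l1, l2, e1 (fun v k => ∑ i, α v i ^ k) hαb, e1 (fun v k => ρ.character (frob v ^ k))
        (fun v k => char_bound _)]
      congr 1
      funext v k
      by_cases h : η (frob v ^ k) = 1
      · rw [equal_of (Or.inr rfl) hη B v k h]
      · have h8 : ((η (frob v) : ℂˣ) : ℂ) ^ k ≠ 1 := by
          intro h9
          apply h
          rw [map_pow]
          apply Units.ext
          rw [Units.val_pow_eq_pow_val, h9, Units.val_one]
        have h9 : (((η (frob v) : ℂˣ) : ℂ) ^ k) ^ 3 = 1 := by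
          rw [← pow_mul, mul_comm, pow_mul, ← Units.val_pow_eq_pow_val, hη, Units.val_one, one_pow]
        have h10 : ‖((η (frob v) : ℂˣ) : ℂ) ^ k‖ = 1 := by rw [norm_pow, hηn, one_pow]
        generalize ((η (frob v) : ℂˣ) : ℂ) ^ k = w at h8 h9 h10 ⊢
        have h11 : 1 + w + conj w = 0 := by
          have h12 : conj w = w ^ 2 := by
            have h13 : w * conj w = 1 := by
              rw [Complex.mul_conj, Complex.normSq_eq_norm_sq, h10]; norm_num
            have h14 : w ≠ 0 := by rw [← norm_pos_iff, h10]; norm_num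
            apply mul_left_cancel₀ h14
            rw [h13]
            linear_combination -h9
          rw [h12]
          have h15 : (w - 1) * (1 + w + w ^ 2) = 0 := by linear_combination h9
          rcases mul_eq_zero.1 h15 with h16 | h16
          · exact absurd (sub_eq_zero.1 h16) h8
          · exact h16
        rw [map_mul, map_mul, Complex.conj_ofReal, Complex.conj_ofReal]
        linear_combination (((‖∑ i, α v i ^ k‖ ^ 2 : ℝ) : ℂ) - ((‖ρ.character (frob v ^ k)‖ ^ 2 : ℝ) : ℂ)) * h11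
    have hmR : MeromorphicOn (R * R' * cc R') Half := (B.square.mero.mul B.twisted.mero).mul hRc.mero
    have hmD : MeromorphicOn (D * D' * cc D') Half := (A.square.mero.mul A.twisted.mero).mul hDc.mero
    have hid := half_id (σ := 0) hmR hmD key (y := (β : ℂ)) hβH
    have ho := meromorphicOrderAt_congr hid
    rw [meromorphicOrderAt_mul ((B.square.mero.mul B.twisted.mero) _ hβH) (hRc.mero _ hβH),
      meromorphicOrderAt_mul (B.square.mero _ hβH) (B.twisted.mero _ hβH),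
      meromorphicOrderAt_mul ((A.square.mero.mul A.twisted.mero) _ hβH) (hDc.mero _ hβH),
      meromorphicOrderAt_mul (A.square.mero _ hβH) (A.twisted.mero _ hβH), hr, hd, hr', hd', hrc, hdc] at ho
    have ho' : r + r' + r' = d + d' + d' := by exact_mod_cast ho
    have : (((3 - 1 : ℕ) : ℤ)) ≤ d := by push_cast; omega
    exact_mod_cast this

end setup

end Pool.Agent.E8helper33.AH
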