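import Pool.Agent.E8helper33.AH.Rep
import Pool.Agent.R246.MomentC

/-!
# A local mismatch makes a gap of at least three
-/

set_option autoImplicit false
set_option linter.unusedSectionVars false

namespace Pool.Agent.E8helper33.AH

open Finset
open scoped ComplexConjugate

lemma cube_mis {n : ℕ} (hn : ¬ 3 ∣ n) (e f : Fin n → ℂ) {μ : ℂ} (hμ : ‖μ‖ = 1)
    (he : ∀ i, e i ^ 3 = μ) (hf : ∀ i, f i ^ 3 = μ) (hp : ∏ i, e i = ∏ i, f i)
    (h1 : ‖∑ i, e i‖ = 1) : ∑ i, e i = ∑ i, f i ∨ 4 ≤ ‖∑ i, f i‖ ^ 2 := by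
  obtain ⟨c, hc3⟩ := IsAlgClosed.exists_pow_nat_eq μ (n := 3) (by norm_num)
  have hcn : ‖c‖ = 1 := by
    have : ‖c‖ ^ 3 = 1 := by rw [← norm_pow, hc3, hμ]
    exact (pow_eq_one_iff_of_nonneg (norm_nonneg _) (by norm_num)).1 this
  have hc : c ≠ 0 := by rw [← norm_pos_iff, hcn]; norm_num
  obtain ⟨X, Y, K, hs, hpr, hY, hXY⟩ := cube_sum e hc (fun i => by rw [he i, hc3])
  obtain ⟨X', Y', K', hs', hpr', hY', hXY'⟩ := cube_sum f hc (fun i => by rw [hf i, hc3])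
  have hKK : om ^ K = om ^ K' := by
    rw [hpr, hpr'] at hp
    exact mul_left_cancel₀ (pow_ne_zero _ hc) hp
  have hK := om_inj hKK
  have e1 : ‖∑ i, e i‖ ^ 2 = ((X ^ 2 - X * Y + Y ^ 2 : ℤ) : ℝ) := by
    rw [hs, norm_mul, hcn, one_mul, om_norm]
  have e2 : ‖∑ i, f i‖ ^ 2 = ((X' ^ 2 - X' * Y' + Y' ^ 2 : ℤ) : ℝ) := by
    rw [hs', norm_mul, hcn, one_mul, om_norm]
  have hu : X ^ 2 - X * Y + Y ^ 2 = 1 := by
    rw [h1, one_pow] at e1
    exact_mod_cast e1.symm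
  rcases eis_val hn hXY' with h | h
  · obtain ⟨rfl, rfl⟩ := eis_same hu h (hY.trans (hK.trans hY'.symm)) (hXY.trans hXY'.symm)
    left
    rw [hs, hs']
  · right
    rw [e2]
    exact_mod_cast h

lemma four_mis {n : ℕ} (hn : ¬ 2 ∣ n) (e f : Fin n → ℂ) {μ : ℂ} (hμ : ‖μ‖ = 1)
    (he : ∀ i, e i ^ 4 = μ) (hf : ∀ i, f i ^ 4 = μ) (hp : ∏ i, e i = ∏ i, f i)
    (hq : ∑ i, e i ^ 2 = ∑ i, f i ^ 2)
    (h1 : ‖∑ i, e i‖ = 1) : ∑ i, e i = ∑ i, f i ∨ 4 ≤ ‖∑ i, f i‖ ^ 2 := by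
  obtain ⟨c, hc3⟩ := IsAlgClosed.exists_pow_nat_eq μ (n := 4) (by norm_num)
  have hcn : ‖c‖ = 1 := by
    have : ‖c‖ ^ 4 = 1 := by rw [← norm_pow, hc3, hμ]
    exact (pow_eq_one_iff_of_nonneg (norm_nonneg _) (by norm_num)).1 this
  have hc : c ≠ 0 := by rw [← norm_pos_iff, hcn]; norm_num
  obtain ⟨X, Y, P, K, hs, hpr, hsq, hX, hY, hXY⟩ := four_sum e hc (fun i => by rw [he i, hc3])
  obtain ⟨X', Y', P', K', hs', hpr', hsq', hX', hY', hXY'⟩ := four_sum f hc (fun i => by rw [hf i, hc3])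
  have hKK : Complex.I ^ K = Complex.I ^ K' := by
    rw [hpr, hpr'] at hp
    exact mul_left_cancel₀ (pow_ne_zero _ hc) hp
  have hK := I_inj hKK
  have hP : P = P' := by
    rw [hsq, hsq'] at hq
    have h3 := mul_left_cancel₀ (pow_ne_zero _ hc) hq
    have h4 : (2 * P - n : ℤ) = 2 * P' - n := by exact_mod_cast h3
    omega
  subst hP
  have e1 : ‖∑ i, e i‖ ^ 2 = ((X ^ 2 + Y ^ 2 : ℤ) : ℝ) := by
    rw [hs, norm_mul, hcn, one_mul, I_norm]
  have e2 : ‖∑ i, f i‖ ^ 2 = ((X' ^ 2 + Y' ^ 2 : ℤ) : ℝ) := by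
    rw [hs', norm_mul, hcn, one_mul, I_norm]
  have hu : X ^ 2 + Y ^ 2 = 1 := by
    rw [h1, one_pow] at e1
    exact_mod_cast e1.symm
  rcases gauss_val hn hXY' with h | h
  · have h5 : -X + Y ≡ -X' + Y' [ZMOD 4] := by
      have h6 := (hY.trans (hK.trans hY'.symm))
      exact Int.ModEq.add_right_cancel' P h6
    obtain ⟨rfl, rfl⟩ := gauss_same hu h hX hX' h5
    left
    rw [hs, hs']
  · right
    rw [e2]
    exact_mod_cast h

/-- sums of `k`-th powers of `m`-th roots of a number of absolute value one for `k = ± 1` modulo `m` -/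
lemma sum_pow_eq {n m : ℕ} (hm : 2 ≤ m) (x y : Fin n → ℂ) {μ : ℂ} (hμ : ‖μ‖ = 1)
    (hx : ∀ i, x i ^ m = μ) (hy : ∀ i, y i ^ m = μ) (h : ∑ i, x i = ∑ i, y i) {k : ℕ}
    (hk : k % m = 1 ∨ k % m = m - 1) : ∑ i, x i ^ k = ∑ i, y i ^ k := by
  have h0 : ∀ z : Fin n → ℂ, (∀ i, z i ^ m = μ) → ∑ i, z i ^ k = μ ^ (k / m) * ∑ i, z i ^ (k % m) := by
    intro z hz
    rw [Finset.mul_sum]
    refine Finset.sum_congr rfl fun i _ => ?_
    conv_lhs => rw [← Nat.div_add_mod k m]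
    rw [pow_add, pow_mul, hz]
  rw [h0 x hx, h0 y hy]
  congr 1
  rcases hk with hk | hk
  · rw [hk]
    simpa using h
  · rw [hk]
    have h1 : ∀ z : Fin n → ℂ, (∀ i, z i ^ m = μ) → ∑ i, z i ^ (m - 1) = μ * conj (∑ i, z i) := by
      intro z hz
      rw [map_sum, Finset.mul_sum]
      refine Finset.sum_congr rfl fun i _ => ?_
      have h2 : ‖z i‖ = 1 := by
        have h3 : ‖z i‖ ^ m = 1 := by rw [← norm_pow, hz, hμ]
        exact (pow_eq_one_iff_of_nonneg (norm_nonneg _) (by omega)).1 h3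
      have h3 : z i * conj (z i) = 1 := by
        rw [Complex.mul_conj, Complex.normSq_eq_norm_sq, h2]; norm_num
      have h4 : z i ^ m = z i ^ (m - 1) * z i := by
        rw [← pow_succ]
        congr 1
        omega
      rw [← hz i, h4, mul_assoc, h3, mul_one]
    rw [h1 x hx, h1 y hy, h]

section rep

variable {G : Type} [Group G] [Finite G] {n : ℕ} (ρ : Representation ℂ G (Fin n → ℂ))

/-- **Mismatch.** At a place with Frobenius element `g`, `η g ≠ 1`, the Satake parameters are the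
eigenvalues of `ρ g`, or their sum has at least the absolute value `2`. -/
theorem local_mis {l : ℕ} (hl : l = 2 ∨ l = 3) (hn : ¬ l ∣ n) {g : G} {μ : ℂ}
    (h : ρ g ^ expo l = μ • 1) (h1 : ‖ρ.character g‖ = 1)
    {a : Fin n → ℂ} (ha : univ.val.map (fun i => a i ^ l) = eig (ρ g ^ l))
    (hp : ∏ i, a i = LinearMap.det (ρ g)) :
    univ.val.map a = eig (ρ g) ∨ 4 ≤ ‖∑ i, a i‖ ^ 2 := by
  have hn0 : 0 < n := by
    rcases Nat.eq_zero_or_pos n with h0 | h0
    · exact absurd (h0 ▸ dvd_zero l) hn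
    · exact h0
  have hmem : ∀ i, a i ^ l ∈ eig (ρ g ^ l) := fun i => by
    rw [← ha]
    exact Multiset.mem_map_of_mem (fun i => a i ^ l) (mem_univ_val i)
  obtain ⟨e, he⟩ := exists_fun (card_eig (ρ g))
  have hem : ∀ i, e i ∈ eig (ρ g) := fun i => by
    rw [← he]
    exact Multiset.mem_map_of_mem _ (mem_univ_val i)
  have hs : ∀ k : ℕ, ∑ i, e i ^ k = LinearMap.trace ℂ (Fin n → ℂ) (ρ g ^ k) := fun k => by
    rw [← sum_eig_pow, ← he, Multiset.map_map]
    rfl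
  have hd : ∏ i, e i = LinearMap.det (ρ g) := by
    rw [← prod_eig, ← he]
    rfl
  have hμ := scal_norm ρ hn0 h
  have hsum : ρ.character g = ∑ i, e i := by
    have := hs 1
    simp only [pow_one] at this
    rw [this]
    rfl
  rw [hsum] at h1
  have hpow : ∀ k : ℕ, l ∣ k → ∑ i, e i ^ k = ∑ i, a i ^ k := by
    rintro k ⟨j, rfl⟩
    rw [hs, pow_mul, ← sum_eig_pow, ← ha, Multiset.map_map]
    change ∑ i, (a i ^ l) ^ j = _
    refine Finset.sum_congr rfl fun i _ => ?_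
    rw [pow_mul]
  have hee : ∀ i, e i ^ expo l = μ := fun i => eig_pow _ (hem i) h
  have hmain : (∀ i, a i ^ expo l = μ) ∧ (∑ i, e i = ∑ i, a i ∨ 4 ≤ ‖∑ i, a i‖ ^ 2) := by
    rcases hl with rfl | rfl
    · have haa : ∀ i, a i ^ 4 = μ := fun i => by
        have h2 : (a i ^ 2) ^ 2 = μ := by
          refine eig_pow _ (hmem i) ?_
          rw [← pow_mul]
          exact h
        have h3 : a i ^ 4 = (a i ^ 2) ^ 2 := by ring
        rw [h3, h2]
      refine ⟨haa, four_mis hn e a hμ hee haa (hd.trans hp.symm) (hpow 2 dvd_rfl) h1⟩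
    · have haa : ∀ i, a i ^ 3 = μ := fun i => by
        have h2 : (a i ^ 3) ^ 1 = μ := by
          refine eig_pow _ (hmem i) ?_
          rw [pow_one]
          exact h
        simpa using h2
      exact ⟨haa, cube_mis hn e a hμ hee haa (hd.trans hp.symm) h1⟩
  obtain ⟨haa, h2 | h2⟩ := hmain
  · left
    rw [← he]
    refine Pool.Agent.R246.MomentC.newton (fun k h3 _ => by exact_mod_cast (by omega : k ≠ 0)) a e
      fun k _ _ => ?_
    by_cases hk : l ∣ k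
    · exact (hpow k hk).symm
    · have h5 : 2 ≤ expo l := by rcases hl with rfl | rfl <;> simp [expo]
      refine sum_pow_eq h5 a e hμ haa hee h2.symm ?_
      rcases hl with rfl | rfl
      · simp only [expo]
        norm_num
        omega
      · simp only [expo]
        norm_num
        omega
  · right
    exact h2

end rep

end Pool.Agent.E8helper33.AH
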