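import Pool.Agent.E8helper33.AH.Main
import Pool.Agent.E8helper33.AH.Core2
import Pool.Agent.E8helper33.AH.Mis

/-!
# The main theorem with the matching of the local components
-/

set_option autoImplicit false
set_option linter.unusedSectionVars false

namespace Pool.Agent.E8helper33.AH

open NumberField IsDedekindDomain Finset Filter Topology
open scoped ComplexConjugate

variable {K E : Type} [Field K] [NumberField K] [Field E] [NumberField E] [Algebra K E]
variable {n : ℕ} {S : Set (HeightOneSpectrum (𝓞 K))}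

/-- The places outside `S` at which the Satake parameters `α` are not the eigenvalues of `ρ`. -/
def Mismatch (frob : Pl S → (E ≃ₐ[K] E)) (ρ : Representation ℂ (E ≃ₐ[K] E) (Fin n → ℂ))
    (α : Pl S → Fin n → ℂ) : Set (Pl S) :=
  {v | univ.val.map (α v) ≠ (ρ (frob v)).charpoly.roots}

section setup

variable {frob : Pl S → (E ≃ₐ[K] E)} {ρ : Representation ℂ (E ≃ₐ[K] E) (Fin n → ℂ)}
  {η : (E ≃ₐ[K] E) →* ℂˣ} {l : ℕ} {α : Pl S → Fin n → ℂ} {D D' R R' : ℂ → ℂ}

lemma sum_bound (hl : l = 2 ∨ l = 3) (B : Descent frob ρ η l α R R') (v : Pl S) (k : ℕ) :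
    ‖∑ i, α v i ^ k‖ ≤ (n : ℝ) := by
  refine (norm_sum_le _ _).trans ?_
  have h1 : ∀ i ∈ (univ : Finset (Fin n)), ‖α v i ^ k‖ ≤ 1 := fun i _ => by
    rw [norm_pow, alpha_norm hl rho_fin B v i, one_pow]
  refine (Finset.sum_le_card_nsmul _ _ _ h1).trans ?_
  simp

lemma orders (A : ArtinSide frob ρ η D D') (B : Descent frob ρ η l α R R') :
    ∀ s ∈ Half, ∃ r d : ℤ, meromorphicOrderAt R s = r ∧ meromorphicOrderAt D s = d ∧
      meromorphicOrderAt (R * D⁻¹) s = ((r - d : ℤ) : WithTop ℤ) := by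
  intro s hs
  obtain ⟨r, hr⟩ := exists_order B.square.mero (fun z hz => B.square.ne_zero hz) hs
  obtain ⟨d, hd⟩ := exists_order A.square.mero (fun z hz => A.square.ne_zero hz) hs
  refine ⟨r, d, hr, hd, ?_⟩
  rw [meromorphicOrderAt_mul (B.square.mero s hs) (A.square.mero s hs).inv, meromorphicOrderAt_inv,
    hr, hd]
  rfl

/-- a pole of `R / D` at `β` -/
lemma parity (hl : l = 2 ∨ l = 3) (hη : ∀ g, η g ^ l = 1)
    (A : ArtinSide frob ρ η D D') (B : Descent frob ρ η l α R R') {β : ℝ} (hβ : 0 < β) (hβlt : β < 1)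
    (hβF : meromorphicOrderAt (R * D⁻¹) (β : ℂ) < 0) :
    (((l - 1 : ℕ) : ℤ) : WithTop ℤ) ≤ meromorphicOrderAt D (β : ℂ) := by
  have hαb : ∀ v k, ‖∑ i, α v i ^ k‖ ≤ (n : ℝ) := sum_bound hl B
  have hβH : (β : ℂ) ∈ Half := by show 0 < (β : ℂ).re; rwa [Complex.ofReal_re]
  have hβne : (β : ℂ) ≠ 1 := by
    intro h
    have := congrArg Complex.re h
    rw [Complex.ofReal_re, Complex.one_re] at this
    exact hβlt.ne this
  obtain ⟨r, d, hr, hd, hrd⟩ := orders A B β hβH
  have h2 := hβF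
  rw [hrd] at h2
  have h3 := B.square_hol _ hβH hβne
  rw [hr] at h3
  have h5 : 0 ≤ r := by exact_mod_cast h3
  have h7 : r - d < 0 := by exact_mod_cast h2
  rw [hd]
  rcases hl with rfl | rfl
  · have : (((2 - 1 : ℕ) : ℤ)) ≤ d := by push_cast; omega
    exact_mod_cast this
  · -- the cubic case: parity
    obtain ⟨r', hr'⟩ := exists_order B.twisted.mero (fun z hz => B.twisted.ne_zero hz) hβH
    obtain ⟨d', hd'⟩ := exists_order A.twisted.mero (fun z hz => A.twisted.ne_zero hz) hβH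
    have hcβ : conj (β : ℂ) = β := Complex.conj_ofReal β
    have hrc : meromorphicOrderAt (cc R') β = r' := by
      have := order_cc (B.twisted.mero _ hβH) hr'
      rwa [hcβ] at this
    have hdc : meromorphicOrderAt (cc D') β = d' := by
      have := order_cc (A.twisted.mero _ hβH) hd'
      rwa [hcβ] at this
    have hRc := B.twisted.cc
    have hDc := A.twisted.cc
    have hηn : ∀ v, ‖((η (frob v) : ℂˣ) : ℂ)‖ = 1 := fun v => by
      have h := hη (frob v)
      have h' : ((η (frob v) : ℂˣ) : ℂ) ^ 3 = 1 := by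
        rw [← Units.val_pow_eq_pow_val, h, Units.val_one]
      exact Complex.norm_eq_one_of_pow_eq_one h' (by norm_num)
    have bound : ∀ (x : ℂ), ‖x‖ ≤ n → ‖((‖x‖ ^ 2 : ℝ) : ℂ)‖ ≤ (n : ℝ) ^ 2 := by
      intro x hx
      rw [Complex.norm_real, Real.norm_of_nonneg (by positivity)]
      exact pow_le_pow_left₀ (norm_nonneg _) hx 2
    have bound' : ∀ (v : Pl S) (k : ℕ) (x : ℂ), ‖x‖ ≤ n →
        ‖((η (frob v) : ℂˣ) : ℂ) ^ k * ((‖x‖ ^ 2 : ℝ) : ℂ)‖ ≤ (n : ℝ) ^ 2 := by
      intro v k x hx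
      rw [norm_mul, norm_pow, hηn, one_pow, one_mul]
      exact bound x hx
    have key : ∀ s : ℂ, 0 < s.re → 1 < s.re → (R * R' * cc R') s = (D * D' * cc D') s := by
      intro s _ hs
      have e1 : ∀ (x : Pl S → ℕ → ℂ), (∀ v k, ‖x v k‖ ≤ n) →
          eul nrm (fun v k => ((‖x v k‖ ^ 2 : ℝ) : ℂ)) s *
            eul nrm (fun v k => ((η (frob v) : ℂˣ) : ℂ) ^ k * ((‖x v k‖ ^ 2 : ℝ) : ℂ)) s *
            eul nrm (fun v k => conj (((η (frob v) : ℂˣ) : ℂ) ^ k * ((‖x v k‖ ^ 2 : ℝ) : ℂ))) s =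
          eul nrm (fun v k => ((‖x v k‖ ^ 2 : ℝ) : ℂ) +
            ((η (frob v) : ℂˣ) : ℂ) ^ k * ((‖x v k‖ ^ 2 : ℝ) : ℂ) +
            conj (((η (frob v) : ℂˣ) : ℂ) ^ k * ((‖x v k‖ ^ 2 : ℝ) : ℂ))) s := by
        intro x hx
        have b1 : ∀ v k, ‖(fun v k => ((‖x v k‖ ^ 2 : ℝ) : ℂ)) v (k + 1)‖ ≤ (n : ℝ) ^ 2 := fun v k =>
          bound _ (hx v _)
        have b2 : ∀ v k, ‖(fun v k => ((η (frob v) : ℂˣ) : ℂ) ^ k * ((‖x v k‖ ^ 2 : ℝ) : ℂ)) v (k + 1)‖
            ≤ (n : ℝ) ^ 2 := fun v k => bound' v _ _ (hx v _)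
        have b3 : ∀ v k, ‖(fun v k => conj (((η (frob v) : ℂˣ) : ℂ) ^ k * ((‖x v k‖ ^ 2 : ℝ) : ℂ))) v (k + 1)‖
            ≤ (n : ℝ) ^ 2 := fun v k => by
          simp only
          rw [RCLike.norm_conj]
          exact bound' v _ _ (hx v _)
        rw [← eul_mul two_le_nrm summable_nrm b1 b2 hs]
        rw [← eul_mul two_le_nrm summable_nrm (A := (n : ℝ) ^ 2 + (n : ℝ) ^ 2) (fun v k =>
          (norm_add_le _ _).trans (add_le_add (b1 v k) (b2 v k))) b3 hs]
      have l1 : (R * R' * cc R') s = eul nrm (fun v k => ((‖∑ i, α v i ^ k‖ ^ 2 : ℝ) : ℂ)) s *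
            eul nrm (fun v k => ((η (frob v) : ℂˣ) : ℂ) ^ k * ((‖∑ i, α v i ^ k‖ ^ 2 : ℝ) : ℂ)) s *
            eul nrm (fun v k => conj (((η (frob v) : ℂˣ) : ℂ) ^ k * ((‖∑ i, α v i ^ k‖ ^ 2 : ℝ) : ℂ))) s := by
        show R s * R' s * cc R' s = _
        rw [B.square.eul_eq' hs, B.twisted.eul_eq' hs, hRc.eul_eq' hs]
      have l2 : (D * D' * cc D') s = eul nrm (fun v k => ((‖ρ.character (frob v ^ k)‖ ^ 2 : ℝ) : ℂ)) s *
            eul nrm (fun v k => ((η (frob v) : ℂˣ) : ℂ) ^ k * ((‖ρ.character (frob v ^ k)‖ ^ 2 : ℝ) : ℂ)) s *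
            eul nrm (fun v k => conj (((η (frob v) : ℂˣ) : ℂ) ^ k *
              ((‖ρ.character (frob v ^ k)‖ ^ 2 : ℝ) : ℂ))) s := by
        show D s * D' s * cc D' s = _
        rw [A.square.eul_eq' hs, A.twisted.eul_eq' hs, hDc.eul_eq' hs]
      rw [l1, l2, e1 (fun v k => ∑ i, α v i ^ k) hαb, e1 (fun v k => ρ.character (frob v ^ k))
        (fun v k => char_bound _)]
      congr 1
      funext v k
      by_cases h : η (frob v ^ k) = 1
      · rw [equal_of (Or.inr rfl) hη B v k h]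
      · have h8 : ((η (frob v) : ℂˣ) : ℂ) ^ k ≠ 1 := by
          intro h9
          apply h
          rw [map_pow]
          apply Units.ext
          rw [Units.val_pow_eq_pow_val, h9, Units.val_one]
        have h9 : (((η (frob v) : ℂˣ) : ℂ) ^ k) ^ 3 = 1 := by
          rw [← pow_mul, mul_comm, pow_mul, ← Units.val_pow_eq_pow_val, hη, Units.val_one, one_pow]
        have h10 : ‖((η (frob v) : ℂˣ) : ℂ) ^ k‖ = 1 := by rw [norm_pow, hηn, one_pow]
        generalize ((η (frob v) : ℂˣ) : ℂ) ^ k = w at h8 h9 h10 ⊢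
        have h11 : 1 + w + conj w = 0 := by
          have h12 : conj w = w ^ 2 := by
            have h13 : w * conj w = 1 := by
              rw [Complex.mul_conj, Complex.normSq_eq_norm_sq, h10]; norm_num
            have h14 : w ≠ 0 := by rw [← norm_pos_iff, h10]; norm_num
            apply mul_left_cancel₀ h14
            rw [h13]
            linear_combination -h9
          rw [h12]
          have h15 : (w - 1) * (1 + w + w ^ 2) = 0 := by linear_combination h9
          rcases mul_eq_zero.1 h15 with h16 | h16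
          · exact absurd (sub_eq_zero.1 h16) h8
          · exact h16
        rw [map_mul, map_mul, Complex.conj_ofReal, Complex.conj_ofReal]
        linear_combination (((‖∑ i, α v i ^ k‖ ^ 2 : ℝ) : ℂ) - ((‖ρ.character (frob v ^ k)‖ ^ 2 : ℝ) : ℂ)) * h11
    have hmR : MeromorphicOn (R * R' * cc R') Half := (B.square.mero.mul B.twisted.mero).mul hRc.mero
    have hmD : MeromorphicOn (D * D' * cc D') Half := (A.square.mero.mul A.twisted.mero).mul hDc.mero
    have hid := half_id (σ := 0) hmR hmD key (y := (β : ℂ)) hβH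
    have ho := meromorphicOrderAt_congr hid
    rw [meromorphicOrderAt_mul ((B.square.mero.mul B.twisted.mero) _ hβH) (hRc.mero _ hβH),
      meromorphicOrderAt_mul (B.square.mero _ hβH) (B.twisted.mero _ hβH),
      meromorphicOrderAt_mul ((A.square.mero.mul A.twisted.mero) _ hβH) (hDc.mero _ hβH),
      meromorphicOrderAt_mul (A.square.mero _ hβH) (A.twisted.mero _ hβH), hr, hd, hr', hd', hrc, hdc] at ho
    have ho' : r + r' + r' = d + d' + d' := by exact_mod_cast ho
    have : (((3 - 1 : ℕ) : ℤ)) ≤ d := by push_cast; omega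
    exact_mod_cast this


/-- at a mismatch there is a gap -/
lemma gap_of_mis [ρ.IsIrreducible] (hl : l = 2 ∨ l = 3) (hn : ¬ l ∣ n)
    (hsc : ∀ g, η g ≠ 1 → ∃ μ : ℂ, ρ g ^ expo l = μ • 1)
    (B : Descent frob ρ η l α R R') {v : Pl S} (hv : v ∈ Mismatch frob ρ α) :
    3 ≤ ‖∑ i, α v i ^ 1‖ ^ 2 - ‖ρ.character (frob v ^ 1)‖ ^ 2 := by
  have h : η (frob v) ≠ 1 := fun h => hv (B.split v h)
  obtain ⟨μ, hμ⟩ := hsc _ h
  have h1 := char_one_off hl hn hsc h
  rcases local_mis ρ hl hn hμ h1 (B.inert v h) (B.det v) with h2 | h2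
  · exact absurd h2 hv
  · simp only [pow_one]
    rw [h1]
    linarith

lemma mis_per (B : Descent frob ρ η l α R R') (v : Pl S) (j : ℕ) :
    (∑ i, α v i ^ (l * Nat.card (E ≃ₐ[K] E) * j + 1) = ∑ i, α v i ^ 1) ∧
      ρ.character (frob v ^ (l * Nat.card (E ≃ₐ[K] E) * j + 1)) = ρ.character (frob v ^ 1) := by
  constructor
  · refine Finset.sum_congr rfl fun i _ => ?_
    have h1 : α v i ^ (l * Nat.card (E ≃ₐ[K] E)) = 1 := by
      by_cases h : η (frob v) = 1
      · have h1 : α v i ∈ eig (ρ (frob v)) := by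
          unfold eig
          rw [← B.split v h]
          exact Multiset.mem_map_of_mem _ (mem_univ_val i)
        have h2 := eig_pow _ h1 (rho_fin (frob v))
        rw [mul_comm, pow_mul, h2, one_pow]
      · have h1 : α v i ^ l ∈ eig (ρ (frob v) ^ l) := by
          unfold eig
          rw [← B.inert v h]
          exact Multiset.mem_map_of_mem (fun i => α v i ^ l) (mem_univ_val i)
        have h2 := eig_pow _ h1 (m := Nat.card (E ≃ₐ[K] E)) (μ := 1) (by
          rw [← pow_mul, mul_comm, pow_mul, rho_fin]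
          simp)
        rw [pow_mul, h2]
    rw [pow_add, pow_mul, h1, one_pow, one_mul]
  · have h1 : frob v ^ (l * Nat.card (E ≃ₐ[K] E)) = 1 := by
      rw [mul_comm, pow_mul, pow_card_eq_one', one_pow]
    rw [pow_add, pow_mul, h1, one_pow, one_mul]

lemma not_summable_prog (m : ℕ) : ¬ Summable fun j : ℕ => (1 : ℝ) / ((m * j + 1 : ℕ) : ℝ) := by
  intro h
  have h1 : Summable fun j : ℕ => (1 : ℝ) / ((j + 1 : ℕ) : ℝ) := by
    refine Summable.of_nonneg_of_le (fun j => by positivity) (fun j => ?_) (h.mul_left ((m : ℝ) + 1))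
    rw [mul_one_div, div_le_div_iff₀ (by positivity) (by positivity)]
    push_cast
    nlinarith [Nat.cast_nonneg (α := ℝ) m, Nat.cast_nonneg (α := ℝ) j]
  exact Real.not_summable_one_div_natCast ((summable_nat_add_iff 1).1 h1)

/-- **The main theorem with matching.** -/
theorem main2 [ρ.IsIrreducible] (hl : l = 2 ∨ l = 3) (hη : ∀ g, η g ^ l = 1) (hn : ¬ l ∣ n)
    (hsc : ∀ g, η g ≠ 1 → ∃ μ : ℂ, ρ g ^ expo l = μ • 1)
    (A : ArtinSide frob ρ η D D') (B : Descent frob ρ η l α R R') :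
    ∃ β : ℝ, 0 ≤ β ∧ β < 1 ∧
      (0 < β → (((l - 1 : ℕ) : ℤ) : WithTop ℤ) ≤ meromorphicOrderAt D (β : ℂ)) ∧
      Controls frob ρ α β ∧
      (∀ σ : ℝ, β < σ → Summable fun v : Mismatch frob ρ α => (nrm v.1 : ℝ) ^ (-σ)) ∧
      (β = 0 → MeromorphicAt D 0 → MeromorphicAt R 0 →
        meromorphicOrderAt D 0 ≤ meromorphicOrderAt R 0 → Mismatch frob ρ α = ∅) := by
  have hn0 : 0 < n := by
    rcases Nat.eq_zero_or_pos n with h0 | h0
    · exact absurd (h0 ▸ dvd_zero l) hn
    · exact h0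
  have hαb : ∀ v k, ‖∑ i, α v i ^ k‖ ≤ (n : ℝ) := sum_bound hl B
  obtain ⟨β, hβ0, hβ1, hβF, hβc, hβid, hβL⟩ := core2 (q := nrm) (P := Pl S) two_le_nrm summable_nrm
    (χ := fun v k => ρ.character (frob v ^ k)) (α := fun v k => ∑ i, α v i ^ k) (B := n)
    (fun v k => char_bound _) (fun v k => hαb v _)
    (fun v k => (compare hl hη hn hsc B v (k + 1)).1)
    B.square.mero (fun s hs => B.square.eq s hs) A.square.mero (fun s hs => A.square.eq s hs)
  have horder := orders A B
  have hβlt : β < 1 := by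
    rcases lt_or_eq_of_le hβ1 with h | h
    · exact h
    · exfalso
      subst h
      have h1 : (1 : ℂ) ∈ Half := by show (0 : ℝ) < (1 : ℂ).re; norm_num
      obtain ⟨r, d, hr, hd, hrd⟩ := horder 1 h1
      have h2 := hβF one_pos
      rw [Complex.ofReal_one, hrd] at h2
      have h3 := B.simple
      rw [hr] at h3
      have h4 := A.pole
      rw [hd] at h4
      have h5 : -1 ≤ r := by exact_mod_cast h3
      have h6 : d < 0 := by exact_mod_cast h4
      have h7 : r - d < 0 := by exact_mod_cast h2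
      omega
  have hcon : Controls frob ρ α β := by
    intro t m L P T
    have hL : ∀ s : ℂ, β < s.re → 0 ≤ meromorphicOrderAt L s := by
      refine hβL (fun v k => t v k * ρ.character (frob v ^ k)) (fun v k => t v k * ∑ i, α v i ^ k)
        (|m| * n) |m| ?_ ?_ ?_ L P T.artin.mero (fun s hs => T.artin.eq s hs) T.hol
        (fun s hs => T.standard.eq s hs)
      · intro v k
        rw [norm_mul]
        exact mul_le_mul ((T.bound _ _).trans (le_abs_self m)) (char_bound _) (norm_nonneg _) (abs_nonneg _)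
      · intro v k
        rw [norm_mul]
        exact mul_le_mul ((T.bound _ _).trans (le_abs_self m)) (hαb v _) (norm_nonneg _) (abs_nonneg _)
      · intro v k
        rw [← mul_sub, norm_mul]
        have h1 := (compare hl hη hn hsc B v (k + 1)).2
        rw [one_mul] at h1
        exact mul_le_mul ((T.bound _ _).trans (le_abs_self m)) h1 (norm_nonneg _) (abs_nonneg _)
    intro s hs hneg
    have h1 : s.re ≤ β := by
      by_contra h
      push Not at h
      exact absurd (hL s h) (not_le.2 hneg)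
    refine ⟨h1, fun hsym => ?_⟩
    have h2 := hsym s hs (lt_of_le_of_lt h1 hβlt)
    rw [h2] at hneg
    by_contra h
    push Not at h
    refine absurd (hL (1 - (starRingEnd ℂ) s) ?_) (not_le.2 hneg)
    rw [Complex.sub_re, Complex.one_re, Complex.conj_re]
    linarith
  have hgap0 : ∀ x, 0 ≤ gapc (fun v k => ρ.character (frob v ^ k)) (fun v k => ∑ i, α v i ^ k) x :=
    fun x => div_nonneg (sub_nonneg.2 (compare hl hη hn hsc B _ _).1) (Nat.cast_nonneg _)
  refine ⟨β, hβ0, hβlt, fun hβ => parity hl hη A B hβ hβlt (hβF hβ), hcon, ?_, ?_⟩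
  · intro σ hσ
    have h1 := (hβc σ hσ).comp_injective (i := fun v : Mismatch frob ρ α => ((v.1, 0) : Pl S × ℕ))
      (fun v w h => Subtype.ext (Prod.mk.inj h).1)
    refine Summable.of_nonneg_of_le (fun v => by positivity) (fun v => ?_) h1
    have h2 := gap_of_mis hl hn hsc B v.2
    have hq : (0 : ℝ) < nrm v.1 := by
      have := two_le_nrm v.1
      exact_mod_cast (by omega : 0 < nrm v.1)
    have h3 : Real.exp (-(lam nrm (v.1, 0)) * σ) = (nrm v.1 : ℝ) ^ (-σ) := by
      unfold lam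
      rw [Real.rpow_def_of_pos hq]
      congr 1
      push_cast
      ring
    show (nrm v.1 : ℝ) ^ (-σ) ≤ _ * Real.exp (-(lam nrm (v.1, 0)) * σ)
    rw [h3]
    have h4 : (1 : ℝ) ≤ ‖((gapc (fun v k => ρ.character (frob v ^ k)) (fun v k => ∑ i, α v i ^ k)
        (v.1, 0) : ℝ) : ℂ)‖ := by
      rw [Complex.norm_real, Real.norm_of_nonneg (hgap0 _)]
      unfold gapc
      simp only [Nat.zero_add, Nat.cast_one, div_one]
      linarith
    exact le_mul_of_one_le_left (by positivity) h4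
  · intro hβ mD mR ho
    subst hβ
    by_contra hne
    obtain ⟨v, hv⟩ := Set.nonempty_iff_ne_empty.2 hne
    -- the order of `R / D` at `0`
    have hD0 : meromorphicOrderAt D 0 ≠ ⊤ := by
      intro htop
      rw [meromorphicOrderAt_eq_top_iff, eventually_nhdsWithin_iff] at htop
      obtain ⟨r, hr0, hr⟩ := Metric.eventually_nhds_iff_ball.1 htop
      have hrH : ((r / 2 : ℝ) : ℂ) ∈ Half := by
        show 0 < ((r / 2 : ℝ) : ℂ).re
        rw [Complex.ofReal_re]; positivity
      refine order_ne_top A.square.mero (fun z hz => A.square.ne_zero hz) hrH ?_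
      rw [meromorphicOrderAt_eq_top_iff]
      have h1 : {z : ℂ | z ∈ Metric.ball (0 : ℂ) r ∧ z ≠ 0} ∈ 𝓝 ((r / 2 : ℝ) : ℂ) := by
        refine (Metric.isOpen_ball.inter isOpen_compl_singleton).mem_nhds ⟨?_, ?_⟩
        · rw [Metric.mem_ball, dist_zero_right, Complex.norm_real, Real.norm_of_nonneg (by positivity)]
          linarith
        · have h5 : ((r / 2 : ℝ) : ℂ) ≠ 0 := by exact_mod_cast (by positivity : (r / 2 : ℝ) ≠ 0)
          exact h5
      filter_upwards [nhdsWithin_le_nhds h1] with z hz using hr z hz.1 hz.2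
    have h0 : MeromorphicAt (R * D⁻¹) 0 := mR.mul mD.inv
    have h1 : 0 ≤ meromorphicOrderAt (R * D⁻¹) 0 := by
      rw [meromorphicOrderAt_mul mR mD.inv, meromorphicOrderAt_inv]
      obtain ⟨d, hd⟩ := WithTop.ne_top_iff_exists.1 hD0
      rw [← hd] at ho ⊢
      rcases eq_or_ne (meromorphicOrderAt R 0) ⊤ with h2 | h2
      · rw [h2]
        simp
      · obtain ⟨r, hr⟩ := WithTop.ne_top_iff_exists.1 h2
        rw [← hr] at ho ⊢
        have h3 : d ≤ r := by exact_mod_cast ho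
        have h4 : (0 : ℤ) ≤ r + -d := by omega
        exact_mod_cast h4
    have hsum := summable_zero hgap0 lam_nonneg hβc hβid h0 h1
    set m : ℕ := l * Nat.card (E ≃ₐ[K] E) with hm
    have hm0 : 0 < m := by
      have h2 : 0 < l := by rcases hl with rfl | rfl <;> norm_num
      exact Nat.mul_pos h2 Nat.card_pos
    have h2 := hsum.comp_injective (i := fun j : ℕ => ((v, m * j) : Pl S × ℕ))
      (fun a b h => Nat.eq_of_mul_eq_mul_left hm0 (Prod.mk.inj h).2)
    refine not_summable_prog m (Summable.of_nonneg_of_le (fun j => by positivity) (fun j => ?_) h2)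
    show _ ≤ gapc _ _ (v, m * j)
    unfold gapc
    simp only
    obtain ⟨e1, e2⟩ := mis_per B v j
    rw [hm, e1, e2]
    have h3 := gap_of_mis hl hn hsc B hv
    refine div_le_div_of_nonneg_right ?_ (Nat.cast_nonneg _)
    linarith

end setup

/-- counting from convergence -/
lemma count_of_summable {X : Set (Pl S)} {σ : ℝ} (hσ : 0 < σ)
    (h : Summable fun v : X => (nrm v.1 : ℝ) ^ (-σ)) :
    ∃ C : ℝ, ∀ x : ℝ, 1 ≤ x → {v : Pl S | v ∈ X ∧ (nrm v : ℝ) ≤ x}.Finite ∧
      ({v : Pl S | v ∈ X ∧ (nrm v : ℝ) ≤ x}.ncard : ℝ) ≤ C * x ^ σ := by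
  classical
  refine ⟨∑' v : X, (nrm v.1 : ℝ) ^ (-σ), fun x hx => ?_⟩
  have hx0 : 0 < x := by linarith
  have hlow : ∀ v : X, (nrm v.1 : ℝ) ≤ x → x ^ (-σ) ≤ (nrm v.1 : ℝ) ^ (-σ) := by
    intro v hv
    have hq : (0 : ℝ) < nrm v.1 := by
      have := two_le_nrm v.1
      exact_mod_cast (by omega : 0 < nrm v.1)
    exact Real.rpow_le_rpow_of_nonpos hq hv (by linarith)
  have hfin : {v : X | (nrm v.1 : ℝ) ≤ x}.Finite := by
    have h1 := h.tendsto_cofinite_zero.eventually_lt_const (Real.rpow_pos_of_pos hx0 (-σ))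
    refine (Filter.eventually_cofinite.1 h1).subset fun v hv => ?_
    exact not_lt.2 (hlow v hv)
  have himg : {v : Pl S | v ∈ X ∧ (nrm v : ℝ) ≤ x} = Subtype.val '' {v : X | (nrm v.1 : ℝ) ≤ x} := by
    ext v
    constructor
    · rintro ⟨h1, h2⟩
      exact ⟨⟨v, h1⟩, h2, rfl⟩
    · rintro ⟨w, h1, rfl⟩
      exact ⟨w.2, h1⟩
  refine ⟨himg ▸ hfin.image _, ?_⟩
  rw [himg, Set.ncard_image_of_injective _ Subtype.val_injective,
    Set.ncard_eq_toFinset_card _ hfin]
  have h2 : (hfin.toFinset.card : ℝ) * x ^ (-σ) ≤ ∑' v : X, (nrm v.1 : ℝ) ^ (-σ) := by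
    refine le_trans ?_ (h.sum_le_tsum hfin.toFinset fun v _ => by positivity)
    rw [← nsmul_eq_mul]
    refine Finset.card_nsmul_le_sum _ _ _ fun v hv => hlow v ?_
    simpa using hv
  rw [Real.rpow_neg hx0.le] at h2
  have h3 : 0 < x ^ σ := Real.rpow_pos_of_pos hx0 σ
  rwa [← div_eq_mul_inv, div_le_iff₀ h3] at h2

end Pool.Agent.E8helper33.AH
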