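import Mathlib

/-!
# Sums of cube roots and of fourth roots of a complex number
-/

set_option autoImplicit false

namespace Pool.Agent.E8helper33.AH

open Finset

/-- the primitive cube root of unity -/
noncomputable def om : ℂ := ⟨-1 / 2, Real.sqrt 3 / 2⟩

lemma sq3 : Real.sqrt 3 * Real.sqrt 3 = 3 := Real.mul_self_sqrt (by norm_num)

lemma om_sq : om ^ 2 = -1 - om := by
  rw [sq]
  apply Complex.ext
  · simp only [om, Complex.mul_re, Complex.sub_re, Complex.neg_re, Complex.one_re]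
    nlinarith [sq3]
  · simp only [om, Complex.mul_im, Complex.sub_im, Complex.neg_im, Complex.one_im]
    ring

lemma om_cube : om ^ 3 = 1 := by
  have h : om ^ 3 = om ^ 2 * om := by ring
  rw [h, om_sq]
  have h2 := om_sq
  linear_combination -h2

lemma om_norm (X Y : ℤ) : ‖(X : ℂ) + Y * om‖ ^ 2 = ((X ^ 2 - X * Y + Y ^ 2 : ℤ) : ℝ) := by
  rw [← Complex.normSq_eq_norm_sq, Complex.normSq_apply]
  have h1 : ((X : ℂ) + Y * om).re = X - Y / 2 := by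
    simp [om]; ring
  have h2 : ((X : ℂ) + Y * om).im = Y * Real.sqrt 3 / 2 := by
    simp [om]; ring
  rw [h1, h2]
  push_cast
  nlinarith [sq3]

lemma om_ne_one : om ≠ 1 := by
  intro h
  have := congrArg Complex.re h
  simp [om] at this
  norm_num at this

lemma cube_cases {z : ℂ} (h : z ^ 3 = 1) : z = 1 ∨ z = om ∨ z = om ^ 2 := by
  have h2 := om_sq
  have h3 := om_cube
  have : (z - 1) * ((z - om) * (z - om ^ 2)) = 0 := by
    rw [h2]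
    linear_combination h - (z - 1) * h2
  rcases mul_eq_zero.1 this with h4 | h4
  · exact Or.inl (sub_eq_zero.1 h4)
  · rcases mul_eq_zero.1 h4 with h5 | h5
    · exact Or.inr (Or.inl (sub_eq_zero.1 h5))
    · exact Or.inr (Or.inr (sub_eq_zero.1 h5))

/-- coordinates of `om ^ k` -/
def exx (k : ℕ) : ℤ := if k = 0 then 1 else if k = 1 then 0 else -1
/-- coordinates of `om ^ k` -/
def eyy (k : ℕ) : ℤ := if k = 0 then 0 else if k = 1 then 1 else -1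

lemma om_coord {k : ℕ} (hk : k < 3) : om ^ k = (exx k : ℂ) + eyy k * om := by
  interval_cases k
  · simp [exx, eyy]
  · simp [exx, eyy]
  · rw [om_sq]; simp [exx, eyy]; ring

lemma om_inj {K K' : ℕ} (h : om ^ K = om ^ K') : (K : ℤ) ≡ K' [ZMOD 3] := by
  have h1 : ∀ m : ℕ, om ^ m = om ^ (m % 3) := by
    intro m
    conv_lhs => rw [← Nat.mod_add_div m 3]
    rw [pow_add, pow_mul, om_cube, one_pow, mul_one]
  rw [h1 K, h1 K'] at h
  have a1 : K % 3 < 3 := Nat.mod_lt _ (by norm_num)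
  have a2 : K' % 3 < 3 := Nat.mod_lt _ (by norm_num)
  rw [om_coord a1, om_coord a2] at h
  have hn := congrArg (fun z => ‖z‖ ^ 2) (sub_eq_zero.2 h)
  have h3 : (exx (K % 3) : ℂ) + eyy (K % 3) * om - ((exx (K' % 3) : ℂ) + eyy (K' % 3) * om) =
      ((exx (K % 3) - exx (K' % 3) : ℤ) : ℂ) + ((eyy (K % 3) - eyy (K' % 3) : ℤ) : ℂ) * om := by
    push_cast; ring
  rw [h3, om_norm, norm_zero] at hn
  have hn' : (exx (K % 3) - exx (K' % 3)) ^ 2 - (exx (K % 3) - exx (K' % 3)) * (eyy (K % 3) - eyy (K' % 3)) +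
      (eyy (K % 3) - eyy (K' % 3)) ^ 2 = 0 := by
    have : ((0 : ℝ) ^ 2) = ((0 : ℤ) : ℝ) := by norm_num
    rw [this] at hn
    exact_mod_cast hn
  have key : K % 3 = K' % 3 := by
    generalize K % 3 = u at *
    generalize K' % 3 = w at *
    interval_cases u <;> interval_cases w <;> simp [exx, eyy] at hn' ⊢
  have : (K : ℤ) % 3 = (K' : ℤ) % 3 := by exact_mod_cast key
  exact this

lemma eis_unit {x y : ℤ} (h : x ^ 2 - x * y + y ^ 2 = 1) :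
    (x = 1 ∧ y = 0) ∨ (x = -1 ∧ y = 0) ∨ (x = 0 ∧ y = 1) ∨ (x = 0 ∧ y = -1) ∨
      (x = 1 ∧ y = 1) ∨ (x = -1 ∧ y = -1) := by
  have hy : -1 ≤ y ∧ y ≤ 1 := by constructor <;> nlinarith [sq_nonneg (2 * x - y)]
  have hx : -1 ≤ x ∧ x ≤ 1 := by constructor <;> nlinarith [sq_nonneg (2 * y - x)]
  obtain ⟨h1, h2⟩ := hx
  obtain ⟨h3, h4⟩ := hy
  interval_cases x <;> interval_cases y <;> simp at h ⊢

lemma eis_same {x y x' y' : ℤ} (h : x ^ 2 - x * y + y ^ 2 = 1) (h' : x' ^ 2 - x' * y' + y' ^ 2 = 1)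
    (hy : y ≡ y' [ZMOD 3]) (hxy : x + y ≡ x' + y' [ZMOD 3]) : x = x' ∧ y = y' := by
  have hy' : y % 3 = y' % 3 := hy
  have hx' : (x + y) % 3 = (x' + y') % 3 := hxy
  rcases eis_unit h with ⟨rfl, rfl⟩ | ⟨rfl, rfl⟩ | ⟨rfl, rfl⟩ | ⟨rfl, rfl⟩ | ⟨rfl, rfl⟩ | ⟨rfl, rfl⟩ <;>
  rcases eis_unit h' with ⟨rfl, rfl⟩ | ⟨rfl, rfl⟩ | ⟨rfl, rfl⟩ | ⟨rfl, rfl⟩ | ⟨rfl, rfl⟩ | ⟨rfl, rfl⟩ <;>
  first
  | exact ⟨rfl, rfl⟩
  | (exfalso; revert hy' hx'; norm_num)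

/-- the sum of `n` cube roots of `c ^ 3` in terms of two integers -/
lemma cube_sum {n : ℕ} (e : Fin n → ℂ) {c : ℂ} (hc : c ≠ 0) (he : ∀ i, e i ^ 3 = c ^ 3) :
    ∃ X Y : ℤ, ∃ K : ℕ, ∑ i, e i = c * ((X : ℂ) + Y * om) ∧ ∏ i, e i = c ^ n * om ^ K ∧
      Y ≡ K [ZMOD 3] ∧ X + Y ≡ n [ZMOD 3] := by
  have h1 : ∀ i, ∃ k : ℕ, k < 3 ∧ e i = c * om ^ k := by
    intro i
    have h2 : (e i / c) ^ 3 = 1 := by
      rw [div_pow, he i, div_self (pow_ne_zero _ hc)]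
    rcases cube_cases h2 with h | h | h
    · exact ⟨0, by norm_num, by rw [div_eq_iff hc] at h; rw [h]; ring⟩
    · exact ⟨1, by norm_num, by rw [div_eq_iff hc] at h; rw [h]; ring⟩
    · exact ⟨2, by norm_num, by rw [div_eq_iff hc] at h; rw [h]; ring⟩
  choose k hk3 hk using h1
  refine ⟨∑ i, exx (k i), ∑ i, eyy (k i), ∑ i, k i, ?_, ?_, ?_, ?_⟩
  · push_cast
    rw [Finset.sum_mul, ← Finset.sum_add_distrib, Finset.mul_sum]
    refine Finset.sum_congr rfl fun i _ => ?_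
    rw [hk i, om_coord (hk3 i)]
  · rw [Finset.prod_congr rfl fun i _ => hk i, Finset.prod_mul_distrib, Finset.prod_const,
      Finset.card_univ, Fintype.card_fin, Finset.prod_pow_eq_pow_sum]
  · push_cast
    refine Int.ModEq.sum fun i _ => ?_
    have := hk3 i
    generalize k i = u at *
    interval_cases u <;> decide
  · rw [← Finset.sum_add_distrib]
    have h4 : ((n : ℕ) : ℤ) = ∑ _i : Fin n, (1 : ℤ) := by simp
    rw [h4]
    refine Int.ModEq.sum fun i _ => ?_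
    have := hk3 i
    generalize k i = u at *
    interval_cases u <;> decide

lemma eis_val {x y : ℤ} {n : ℕ} (hn : ¬ 3 ∣ n) (h : x + y ≡ n [ZMOD 3]) :
    x ^ 2 - x * y + y ^ 2 = 1 ∨ 4 ≤ x ^ 2 - x * y + y ^ 2 := by
  have h0 : 0 ≤ x ^ 2 - x * y + y ^ 2 := by nlinarith [sq_nonneg (2 * x - y), sq_nonneg y]
  have h1 : (x ^ 2 - x * y + y ^ 2) % 3 = 1 := by
    have h2 : (x ^ 2 - x * y + y ^ 2) = (x + y) ^ 2 - 3 * (x * y) := by ring
    rw [h2]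
    have h3 : (x + y) % 3 ≠ 0 := by
      intro h4
      have h5 : ((n : ℤ)) % 3 = 0 := by rw [← h]; exact h4
      exact hn (by exact_mod_cast Int.dvd_of_emod_eq_zero h5)
    have h6 : (x + y) % 3 = 1 ∨ (x + y) % 3 = 2 := by omega
    have h7 : ((x + y) ^ 2) % 3 = 1 := by
      rcases h6 with h6 | h6 <;> rw [pow_two, Int.mul_emod, h6] <;> norm_num
    omega
  omega

/-- **The gap for cube roots.** -/
lemma cube_gap {n : ℕ} (hn : ¬ 3 ∣ n) (e f : Fin n → ℂ) {μ : ℂ} (hμ : ‖μ‖ = 1)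
    (he : ∀ i, e i ^ 3 = μ) (hf : ∀ i, f i ^ 3 = μ) (hp : ∏ i, e i = ∏ i, f i)
    (h1 : ‖∑ i, e i‖ = 1) :
    ‖∑ i, e i‖ ^ 2 ≤ ‖∑ i, f i‖ ^ 2 ∧
      ‖∑ i, e i - ∑ i, f i‖ ≤ 1 * (‖∑ i, f i‖ ^ 2 - ‖∑ i, e i‖ ^ 2) := by
  obtain ⟨c, hc3⟩ := IsAlgClosed.exists_pow_nat_eq μ (n := 3) (by norm_num)
  have hcn : ‖c‖ = 1 := by
    have : ‖c‖ ^ 3 = 1 := by rw [← norm_pow, hc3, hμ]
    exact (pow_eq_one_iff_of_nonneg (norm_nonneg _) (by norm_num)).1 this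
  have hc : c ≠ 0 := by rw [← norm_pos_iff, hcn]; norm_num
  obtain ⟨X, Y, K, hs, hpr, hY, hXY⟩ := cube_sum e hc (fun i => by rw [he i, hc3])
  obtain ⟨X', Y', K', hs', hpr', hY', hXY'⟩ := cube_sum f hc (fun i => by rw [hf i, hc3])
  have hKK : om ^ K = om ^ K' := by
    rw [hpr, hpr'] at hp
    exact mul_left_cancel₀ (pow_ne_zero _ hc) hp
  have hK := om_inj hKK
  have e1 : ‖∑ i, e i‖ ^ 2 = ((X ^ 2 - X * Y + Y ^ 2 : ℤ) : ℝ) := by
    rw [hs, norm_mul, hcn, one_mul, om_norm]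
  have e2 : ‖∑ i, f i‖ ^ 2 = ((X' ^ 2 - X' * Y' + Y' ^ 2 : ℤ) : ℝ) := by
    rw [hs', norm_mul, hcn, one_mul, om_norm]
  have hu : X ^ 2 - X * Y + Y ^ 2 = 1 := by
    rw [h1, one_pow] at e1
    exact_mod_cast e1.symm
  rcases eis_val hn hXY' with h | h
  · obtain ⟨rfl, rfl⟩ := eis_same hu h (hY.trans (hK.trans hY'.symm)) (hXY.trans hXY'.symm)
    rw [e2, h, e1, hu]
    refine ⟨le_rfl, ?_⟩
    rw [hs, hs', sub_self, norm_zero]
    simp
  · have h4 : (2 : ℝ) ^ 2 ≤ ‖∑ i, f i‖ ^ 2 := by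
      rw [e2]
      have : (4 : ℝ) ≤ ((X' ^ 2 - X' * Y' + Y' ^ 2 : ℤ) : ℝ) := by exact_mod_cast h
      linarith
    have h5 : 2 ≤ ‖∑ i, f i‖ := by
      by_contra h6
      push Not at h6
      have := pow_lt_pow_left₀ h6 (norm_nonneg _) (n := 2) (by norm_num)
      linarith
    rw [h1]
    refine ⟨by nlinarith, ?_⟩
    refine (norm_sub_le _ _).trans ?_
    rw [h1]
    nlinarith

/-- a sum of `n` cube roots, `n` prime to `3`, is not small -/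
lemma cube_one_le {n : ℕ} (hn : ¬ 3 ∣ n) (e : Fin n → ℂ) {μ : ℂ} (hμ : ‖μ‖ = 1)
    (he : ∀ i, e i ^ 3 = μ) : 1 ≤ ‖∑ i, e i‖ ^ 2 := by
  obtain ⟨c, hc3⟩ := IsAlgClosed.exists_pow_nat_eq μ (n := 3) (by norm_num)
  have hcn : ‖c‖ = 1 := by
    have : ‖c‖ ^ 3 = 1 := by rw [← norm_pow, hc3, hμ]
    exact (pow_eq_one_iff_of_nonneg (norm_nonneg _) (by norm_num)).1 this
  have hc : c ≠ 0 := by rw [← norm_pos_iff, hcn]; norm_num
  obtain ⟨X, Y, K, hs, hpr, hY, hXY⟩ := cube_sum e hc (fun i => by rw [he i, hc3])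
  rw [hs, norm_mul, hcn, one_mul, om_norm]
  rcases eis_val hn hXY with h | h
  · rw [h]; norm_num
  · have : (4 : ℝ) ≤ ((X ^ 2 - X * Y + Y ^ 2 : ℤ) : ℝ) := by exact_mod_cast h
    linarith

/-! ### fourth roots -/

/-- coordinates of `I ^ k` -/
def gx (k : ℕ) : ℤ := if k = 0 then 1 else if k = 2 then -1 else 0
/-- coordinates of `I ^ k` -/
def gy (k : ℕ) : ℤ := if k = 1 then 1 else if k = 3 then -1 else 0
/-- parity -/
def gp (k : ℕ) : ℤ := if k = 0 then 1 else if k = 2 then 1 else 0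

lemma I_coord {k : ℕ} (hk : k < 4) : Complex.I ^ k = (gx k : ℂ) + gy k * Complex.I := by
  interval_cases k
  · simp [gx, gy]
  · simp [gx, gy]
  · simp [gx, gy]
  · simp [gx, gy, pow_succ]

lemma I_coord2 {k : ℕ} (hk : k < 4) : (Complex.I ^ k) ^ 2 = ((2 * gp k - 1 : ℤ) : ℂ) := by
  interval_cases k
  · simp [gp]
  · simp [gp]
  · simp [gp]
  · simp [gp, pow_succ]

lemma I_norm (X Y : ℤ) : ‖(X : ℂ) + Y * Complex.I‖ ^ 2 = ((X ^ 2 + Y ^ 2 : ℤ) : ℝ) := by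
  rw [← Complex.normSq_eq_norm_sq, Complex.normSq_apply]
  simp
  ring

lemma I_inj {K K' : ℕ} (h : Complex.I ^ K = Complex.I ^ K') : (K : ℤ) ≡ K' [ZMOD 4] := by
  have h1 : ∀ m : ℕ, Complex.I ^ m = Complex.I ^ (m % 4) := by
    intro m
    conv_lhs => rw [← Nat.mod_add_div m 4]
    rw [pow_add, pow_mul, Complex.I_pow_four, one_pow, mul_one]
  rw [h1 K, h1 K'] at h
  have a1 : K % 4 < 4 := Nat.mod_lt _ (by norm_num)
  have a2 : K' % 4 < 4 := Nat.mod_lt _ (by norm_num)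
  rw [I_coord a1, I_coord a2] at h
  have hr : gx (K % 4) = gx (K' % 4) := by
    have := congrArg Complex.re h
    simp at this
    exact_mod_cast this
  have hi : gy (K % 4) = gy (K' % 4) := by
    have := congrArg Complex.im h
    simp at this
    exact_mod_cast this
  have key : K % 4 = K' % 4 := by
    generalize K % 4 = u at *
    generalize K' % 4 = w at *
    interval_cases u <;> interval_cases w <;> simp [gx, gy] at hr hi ⊢
  have : (K : ℤ) % 4 = (K' : ℤ) % 4 := by exact_mod_cast key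
  exact this

lemma gauss_unit {x y : ℤ} (h : x ^ 2 + y ^ 2 = 1) :
    (x = 1 ∧ y = 0) ∨ (x = -1 ∧ y = 0) ∨ (x = 0 ∧ y = 1) ∨ (x = 0 ∧ y = -1) := by
  have hy : -1 ≤ y ∧ y ≤ 1 := by constructor <;> nlinarith [sq_nonneg x]
  have hx : -1 ≤ x ∧ x ≤ 1 := by constructor <;> nlinarith [sq_nonneg y]
  obtain ⟨h1, h2⟩ := hx
  obtain ⟨h3, h4⟩ := hy
  interval_cases x <;> interval_cases y <;> simp at h ⊢

lemma gauss_same {x y x' y' P : ℤ} (h : x ^ 2 + y ^ 2 = 1) (h' : x' ^ 2 + y' ^ 2 = 1)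
    (hx : x ≡ P [ZMOD 2]) (hx' : x' ≡ P [ZMOD 2]) (hK : -x + y ≡ -x' + y' [ZMOD 4]) :
    x = x' ∧ y = y' := by
  have h1 : x % 2 = x' % 2 := hx.trans hx'.symm
  have h2 : (-x + y) % 4 = (-x' + y') % 4 := hK
  rcases gauss_unit h with ⟨rfl, rfl⟩ | ⟨rfl, rfl⟩ | ⟨rfl, rfl⟩ | ⟨rfl, rfl⟩ <;>
  rcases gauss_unit h' with ⟨rfl, rfl⟩ | ⟨rfl, rfl⟩ | ⟨rfl, rfl⟩ | ⟨rfl, rfl⟩ <;>
  first
  | exact ⟨rfl, rfl⟩
  | (exfalso; revert h1 h2; norm_num)

lemma four_cases {z : ℂ} (h : z ^ 4 = 1) : ∃ k : ℕ, k < 4 ∧ z = Complex.I ^ k := by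
  have h2 : (z - 1) * (z + 1) * ((z - Complex.I) * (z + Complex.I)) = 0 := by
    have hI := Complex.I_sq
    linear_combination h - (z ^ 2 - 1) * hI
  rcases mul_eq_zero.1 h2 with h3 | h3 <;> rcases mul_eq_zero.1 h3 with h4 | h4
  · exact ⟨0, by norm_num, by rw [pow_zero]; exact sub_eq_zero.1 h4⟩
  · exact ⟨2, by norm_num, by rw [Complex.I_sq]; exact eq_neg_of_add_eq_zero_left h4⟩
  · exact ⟨1, by norm_num, by rw [pow_one]; exact sub_eq_zero.1 h4⟩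
  · exact ⟨3, by norm_num, by rw [Complex.I_pow_three]; exact eq_neg_of_add_eq_zero_left h4⟩

/-- the sum of `n` fourth roots of `c ^ 4` in terms of integers -/
lemma four_sum {n : ℕ} (e : Fin n → ℂ) {c : ℂ} (hc : c ≠ 0) (he : ∀ i, e i ^ 4 = c ^ 4) :
    ∃ X Y P : ℤ, ∃ K : ℕ, ∑ i, e i = c * ((X : ℂ) + Y * Complex.I) ∧
      ∏ i, e i = c ^ n * Complex.I ^ K ∧ ∑ i, e i ^ 2 = c ^ 2 * ((2 * P - n : ℤ) : ℂ) ∧
      X ≡ P [ZMOD 2] ∧ -X + Y + P ≡ K [ZMOD 4] ∧ X + Y ≡ n [ZMOD 2] := by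
  have h1 : ∀ i, ∃ k : ℕ, k < 4 ∧ e i = c * Complex.I ^ k := by
    intro i
    have h2 : (e i / c) ^ 4 = 1 := by
      rw [div_pow, he i, div_self (pow_ne_zero _ hc)]
    obtain ⟨k, hk, h⟩ := four_cases h2
    exact ⟨k, hk, by rw [div_eq_iff hc] at h; rw [h]; ring⟩
  choose k hk4 hk using h1
  refine ⟨∑ i, gx (k i), ∑ i, gy (k i), ∑ i, gp (k i), ∑ i, k i, ?_, ?_, ?_, ?_, ?_, ?_⟩
  · push_cast
    rw [Finset.sum_mul, ← Finset.sum_add_distrib, Finset.mul_sum]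
    refine Finset.sum_congr rfl fun i _ => ?_
    rw [hk i, I_coord (hk4 i)]
  · rw [Finset.prod_congr rfl fun i _ => hk i, Finset.prod_mul_distrib, Finset.prod_const,
      Finset.card_univ, Fintype.card_fin, Finset.prod_pow_eq_pow_sum]
  · have h4 : (2 * ∑ i, gp (k i) - (n : ℤ)) = ∑ i, (2 * gp (k i) - 1) := by
      rw [Finset.sum_sub_distrib, Finset.mul_sum]
      simp
    rw [h4]
    push_cast
    rw [Finset.mul_sum]
    refine Finset.sum_congr rfl fun i _ => ?_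
    rw [hk i, mul_pow, I_coord2 (hk4 i)]
    push_cast
    ring
  · refine Int.ModEq.sum fun i _ => ?_
    have := hk4 i
    generalize k i = u at *
    interval_cases u <;> decide
  · push_cast
    rw [← Finset.sum_neg_distrib, ← Finset.sum_add_distrib, ← Finset.sum_add_distrib]
    refine Int.ModEq.sum fun i _ => ?_
    have := hk4 i
    generalize k i = u at *
    interval_cases u <;> decide
  · rw [← Finset.sum_add_distrib]
    have h4 : ((n : ℕ) : ℤ) = ∑ _i : Fin n, (1 : ℤ) := by simp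
    rw [h4]
    refine Int.ModEq.sum fun i _ => ?_
    have := hk4 i
    generalize k i = u at *
    interval_cases u <;> decide

lemma gauss_val {x y : ℤ} {n : ℕ} (hn : ¬ 2 ∣ n) (h : x + y ≡ n [ZMOD 2]) :
    x ^ 2 + y ^ 2 = 1 ∨ 4 ≤ x ^ 2 + y ^ 2 := by
  have h0 : 0 ≤ x ^ 2 + y ^ 2 := by positivity
  have h1 : (x ^ 2 + y ^ 2) % 4 = 1 := by
    have h3 : (x + y) % 2 = 1 := by
      have h4 : (x + y) % 2 = (n : ℤ) % 2 := h
      omega
    rcases Int.emod_two_eq_zero_or_one x with h5 | h5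
    · have h6 : y % 2 = 1 := by omega
      obtain ⟨a, ha⟩ := Int.dvd_of_emod_eq_zero h5
      obtain ⟨b, hb⟩ : ∃ b, y = 2 * b + 1 := ⟨y / 2, by omega⟩
      have : x ^ 2 + y ^ 2 = 4 * (a ^ 2 + b ^ 2 + b) + 1 := by rw [ha, hb]; ring
      omega
    · have h6 : y % 2 = 0 := by omega
      obtain ⟨a, ha⟩ := Int.dvd_of_emod_eq_zero h6
      obtain ⟨b, hb⟩ : ∃ b, x = 2 * b + 1 := ⟨x / 2, by omega⟩
      have : x ^ 2 + y ^ 2 = 4 * (a ^ 2 + b ^ 2 + b) + 1 := by rw [ha, hb]; ring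
      omega
  omega

/-- **The gap for fourth roots.** -/
lemma four_gap {n : ℕ} (hn : ¬ 2 ∣ n) (e f : Fin n → ℂ) {μ : ℂ} (hμ : ‖μ‖ = 1)
    (he : ∀ i, e i ^ 4 = μ) (hf : ∀ i, f i ^ 4 = μ) (hp : ∏ i, e i = ∏ i, f i)
    (hq : ∑ i, e i ^ 2 = ∑ i, f i ^ 2)
    (h1 : ‖∑ i, e i‖ = 1) :
    ‖∑ i, e i‖ ^ 2 ≤ ‖∑ i, f i‖ ^ 2 ∧
      ‖∑ i, e i - ∑ i, f i‖ ≤ 1 * (‖∑ i, f i‖ ^ 2 - ‖∑ i, e i‖ ^ 2) := by
  obtain ⟨c, hc3⟩ := IsAlgClosed.exists_pow_nat_eq μ (n := 4) (by norm_num)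
  have hcn : ‖c‖ = 1 := by
    have : ‖c‖ ^ 4 = 1 := by rw [← norm_pow, hc3, hμ]
    exact (pow_eq_one_iff_of_nonneg (norm_nonneg _) (by norm_num)).1 this
  have hc : c ≠ 0 := by rw [← norm_pos_iff, hcn]; norm_num
  obtain ⟨X, Y, P, K, hs, hpr, hsq, hX, hY, hXY⟩ := four_sum e hc (fun i => by rw [he i, hc3])
  obtain ⟨X', Y', P', K', hs', hpr', hsq', hX', hY', hXY'⟩ := four_sum f hc (fun i => by rw [hf i, hc3])
  have hKK : Complex.I ^ K = Complex.I ^ K' := by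
    rw [hpr, hpr'] at hp
    exact mul_left_cancel₀ (pow_ne_zero _ hc) hp
  have hK := I_inj hKK
  have hP : P = P' := by
    rw [hsq, hsq'] at hq
    have h3 := mul_left_cancel₀ (pow_ne_zero _ hc) hq
    have h4 : (2 * P - n : ℤ) = 2 * P' - n := by exact_mod_cast h3
    omega
  subst hP
  have e1 : ‖∑ i, e i‖ ^ 2 = ((X ^ 2 + Y ^ 2 : ℤ) : ℝ) := by
    rw [hs, norm_mul, hcn, one_mul, I_norm]
  have e2 : ‖∑ i, f i‖ ^ 2 = ((X' ^ 2 + Y' ^ 2 : ℤ) : ℝ) := by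
    rw [hs', norm_mul, hcn, one_mul, I_norm]
  have hu : X ^ 2 + Y ^ 2 = 1 := by
    rw [h1, one_pow] at e1
    exact_mod_cast e1.symm
  rcases gauss_val hn hXY' with h | h
  · have h5 : -X + Y ≡ -X' + Y' [ZMOD 4] := by
      have h6 := (hY.trans (hK.trans hY'.symm))
      exact Int.ModEq.add_right_cancel' P h6
    obtain ⟨rfl, rfl⟩ := gauss_same hu h hX hX' h5
    rw [e2, h, e1, hu]
    refine ⟨le_rfl, ?_⟩
    rw [hs, hs', sub_self, norm_zero]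
    simp
  · have h4 : (2 : ℝ) ^ 2 ≤ ‖∑ i, f i‖ ^ 2 := by
      rw [e2]
      have : (4 : ℝ) ≤ ((X' ^ 2 + Y' ^ 2 : ℤ) : ℝ) := by exact_mod_cast h
      linarith
    have h5 : 2 ≤ ‖∑ i, f i‖ := by
      by_contra h6
      push Not at h6
      have := pow_lt_pow_left₀ h6 (norm_nonneg _) (n := 2) (by norm_num)
      linarith
    rw [h1]
    refine ⟨by nlinarith, ?_⟩
    refine (norm_sub_le _ _).trans ?_
    rw [h1]
    nlinarith

/-- a sum of `n` fourth roots, `n` odd, is not small -/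
lemma four_one_le {n : ℕ} (hn : ¬ 2 ∣ n) (e : Fin n → ℂ) {μ : ℂ} (hμ : ‖μ‖ = 1)
    (he : ∀ i, e i ^ 4 = μ) : 1 ≤ ‖∑ i, e i‖ ^ 2 := by
  obtain ⟨c, hc3⟩ := IsAlgClosed.exists_pow_nat_eq μ (n := 4) (by norm_num)
  have hcn : ‖c‖ = 1 := by
    have : ‖c‖ ^ 4 = 1 := by rw [← norm_pow, hc3, hμ]
    exact (pow_eq_one_iff_of_nonneg (norm_nonneg _) (by norm_num)).1 this
  have hc : c ≠ 0 := by rw [← norm_pos_iff, hcn]; norm_num
  obtain ⟨X, Y, P, K, hs, hpr, hsq, hX, hY, hXY⟩ := four_sum e hc (fun i => by rw [he i, hc3])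
  rw [hs, norm_mul, hcn, one_mul, I_norm]
  rcases gauss_val hn hXY with h | h
  · rw [h]; norm_num
  · have : (4 : ℝ) ≤ ((X ^ 2 + Y ^ 2 : ℤ) : ℝ) := by exact_mod_cast h
    linarith

end Pool.Agent.E8helper33.AH
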