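import Pool.Agent.E8helper33.AH.Main

/-!
# Multiple real zeros of Dedekind zeta functions near `1`
-/

set_option autoImplicit false
set_option linter.unusedSectionVars false

namespace Pool.Agent.E8helper33.AH

open NumberField IsDedekindDomain Filter Topology
open Pool.Agent.R362.Near Pool.Agent.R362.HL
open Pool.Agent.Y773 Pool.Agent.Y773.G

variable {M : Type} [Field M] [NumberField M]

lemma xi_right {X : ℂ → ℂ} (h : IsXi M X) {z : ℂ} (hz1 : 1 < z.re) :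
    X z * inf M z = z * (z - 1) * dedekindZeta M z := by
  have hR : ((((discr M).natAbs : ℕ) : ℝ) : ℂ) ≠ 0 := by
    have := NumberField.discr_ne_zero M
    have h1 : (discr M).natAbs ≠ 0 := Int.natAbs_ne_zero.2 this
    exact_mod_cast h1
  rw [h.eq z hz1, ← LI_zeta hz1, inf, Finset.prod_inv_distrib, Complex.cpow_neg, pow_one]
  have hp : ∏ φ : M →+* ℂ, Complex.Gammaℝ (z + (ex (fun _ : InfinitePlace M => 0) φ : ℕ)) ≠ 0 :=
    Finset.prod_ne_zero_iff.2 fun φ _ => Complex.Gammaℝ_ne_zero_of_re_pos (by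
      rw [Complex.add_re, Complex.natCast_re]
      have : (0 : ℝ) ≤ (ex (fun _ : InfinitePlace M => 0) φ : ℕ) := Nat.cast_nonneg _
      linarith)
  have hc : ((((discr M).natAbs : ℕ) : ℝ) : ℂ) ^ (z / 2) ≠ 0 := by
    rw [Ne, Complex.cpow_eq_zero_iff]
    exact fun h => hR h.1
  field_simp

lemma order_zero {f : ℂ → ℂ} {x : ℂ} (h : AnalyticAt ℂ f x) (h0 : f x ≠ 0) : meromorphicOrderAt f x = 0 := by
  rw [h.meromorphicOrderAt_eq, h.analyticOrderAt_eq_zero.2 h0]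
  rfl

lemma isOpen_Half : IsOpen Half := isOpen_half 0

/-- A double real zero of a Dedekind zeta function (up to Euler factors) is not close to `1`. -/
theorem zeta_gap (hM : 1 < Module.finrank ℚ M) {D Φ : ℂ → ℂ} (hD : MeromorphicOn D Half)
    (hΦ : DifferentiableOn ℂ Φ Half) (hΦ0 : ∀ s ∈ Half, Φ s ≠ 0)
    (h : ∀ s : ℂ, 1 < s.re → dedekindZeta M s = D s * Φ s) {β : ℝ} (h0 : 0 < β) (h1 : β < 1)
    (h2 : ((2 : ℤ) : WithTop ℤ) ≤ meromorphicOrderAt D (β : ℂ)) :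
    2 ≤ (1 + Real.sqrt ((1 - β) * (Real.log (((discr M).natAbs : ℕ) : ℝ) / 2))) ^ 2 := by
  obtain ⟨X, hX⟩ := exists_xi M
  have hX : IsXi M X := hX
  have hβH : (β : ℂ) ∈ Half := by show 0 < (β : ℂ).re; rwa [Complex.ofReal_re]
  have hf : MeromorphicOn (X * inf M) Half := fun z _ =>
    ((hX.diff.mul inf_diff).analyticAt z).meromorphicAt
  have hp : ∀ z : ℂ, AnalyticAt ℂ (fun z : ℂ => z * (z - 1)) z := fun z => by fun_prop
  have hΦA : ∀ z ∈ Half, AnalyticAt ℂ Φ z := fun z hz => hΦ.analyticAt (isOpen_Half.mem_nhds hz)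
  have hg : MeromorphicOn ((fun z : ℂ => z * (z - 1)) * (D * Φ)) Half := fun z hz =>
    (hp z).meromorphicAt.mul ((hD z hz).mul (hΦA z hz).meromorphicAt)
  have hid := half_id (σ := 0) hf hg (fun s _ hs => by
    show X s * inf M s = s * (s - 1) * (D s * Φ s)
    rw [xi_right hX hs, h s hs]) (y := (β : ℂ)) hβH
  have ho := meromorphicOrderAt_congr hid
  have hne : (β : ℂ) * ((β : ℂ) - 1) ≠ 0 := by
    have e1 : (β : ℂ) ≠ 0 := by exact_mod_cast h0.ne'
    have e2 : (β : ℂ) - 1 ≠ 0 := by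
      rw [sub_ne_zero]
      exact_mod_cast h1.ne
    exact mul_ne_zero e1 e2
  have hXA := hX.diff.analyticAt (β : ℂ)
  have hIA : AnalyticAt ℂ (inf M) (β : ℂ) := inf_diff.analyticAt _
  have hXne : ∃ z, X z ≠ 0 := ⟨2, hX.ne_zero_right (by norm_num)⟩
  rw [meromorphicOrderAt_mul hXA.meromorphicAt hIA.meromorphicAt,
    meromorphicOrderAt_mul (hp _).meromorphicAt ((hD _ hβH).mul (hΦA _ hβH).meromorphicAt),
    meromorphicOrderAt_mul (hD _ hβH) (hΦA _ hβH).meromorphicAt,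
    order_zero hIA (inf_ne hβH), order_zero (hp _) hne,
    order_zero (hΦA _ hβH) (hΦ0 _ hβH), add_zero, zero_add, add_zero, hXA.meromorphicOrderAt_eq,
    ← Nat.cast_analyticOrderNatAt (ord_ne_top hX.diff hXne _)] at ho
  rw [← ho] at h2
  have h3 : 2 ≤ analyticOrderNatAt X (β : ℂ) := by
    have : ((2 : ℤ) : WithTop ℤ) ≤ ((analyticOrderNatAt X (β : ℂ) : ℤ) : WithTop ℤ) := h2
    exact_mod_cast this
  have h4 := hX.ord_real' hM h0.le h1.le
  have h5 : (2 : ℝ) ≤ (analyticOrderNatAt X (β : ℂ) : ℝ) := by exact_mod_cast h3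
  exact h5.trans h4

lemma sqrt_step {x : ℝ} (hx : 0 ≤ x) (h : 2 ≤ (1 + Real.sqrt x) ^ 2) : (Real.sqrt 2 - 1) ^ 2 ≤ x := by
  have h1 : Real.sqrt 2 ≤ 1 + Real.sqrt x := by
    rw [Real.sqrt_le_left (by positivity)]
    exact h
  have h2 : 1 ≤ Real.sqrt 2 := by
    rw [Real.one_le_sqrt]; norm_num
  calc (Real.sqrt 2 - 1) ^ 2 ≤ (Real.sqrt x) ^ 2 := pow_le_pow_left₀ (by linarith) (by linarith) 2
    _ = x := Real.sq_sqrt hx

/-- the location of `β` -/
theorem beta_bound (hM : 1 < Module.finrank ℚ M) {D : ℂ → ℂ} (hD : MeromorphicOn D Half)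
    (h : IsZetaUpTo M D) {β : ℝ} (h0 : 0 ≤ β) (h1 : β < 1)
    (h2 : 0 < β → ((2 : ℤ) : WithTop ℤ) ≤ meromorphicOrderAt D (β : ℂ)) :
    2 * (Real.sqrt 2 - 1) ^ 2 ≤ (1 - β) * Real.log (((discr M).natAbs : ℕ) : ℝ) := by
  have hl : Real.log 3 ≤ Real.log (((discr M).natAbs : ℕ) : ℝ) := lgd_ge hM
  have hl3 : (1 : ℝ) ≤ Real.log 3 := by linarith [log_three.1]
  rcases h0.eq_or_lt with h3 | h3
  · rw [← h3]
    have h4 : Real.sqrt 2 ≤ 3 / 2 := by
      rw [Real.sqrt_le_left (by norm_num)]; norm_num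
    have h5 : 1 ≤ Real.sqrt 2 := by rw [Real.one_le_sqrt]; norm_num
    nlinarith
  · obtain ⟨Φ, hΦ, hΦ0, hζ⟩ := h
    have h4 := zeta_gap hM hD hΦ hΦ0 hζ h3 h1 (h2 h3)
    have h5 := sqrt_step (mul_nonneg (by linarith) (by linarith)) h4
    linarith

end Pool.Agent.E8helper33.AH
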